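import Mathlib

/-!
# The prime zeta function and the Riemann zeta function
-/

set_option autoImplicit false

namespace Pool.Agent.TH958.An

open Complex Filter Topology

/-- `(s - 1) ζ(s)` with the right value at `1` -/
noncomputable def Z1 : ℂ → ℂ := Function.update (fun s => (s - 1) * riemannZeta s) 1 1

lemma Z1_one : Z1 1 = 1 := by simp [Z1]

lemma Z1_ne {s : ℂ} (hs : s ≠ 1) : Z1 s = (s - 1) * riemannZeta s := by
  rw [Z1, Function.update_of_ne hs]

lemma Z1_analytic : AnalyticAt ℂ Z1 1 := by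
  apply Complex.analyticAt_of_differentiable_on_punctured_nhds_of_continuousAt
  · filter_upwards [self_mem_nhdsWithin] with t ht
    have h1 : DifferentiableAt ℂ (fun s : ℂ => (s - 1) * riemannZeta s) t :=
      (differentiableAt_id.sub_const 1).mul (differentiableAt_riemannZeta ht)
    refine h1.congr_of_eventuallyEq ?_
    filter_upwards [isOpen_ne.mem_nhds ht] with u hu
    exact Z1_ne hu
  · rw [Z1, continuousAt_update_same]
    exact riemannZeta_residue_one

lemma zeta_mero (z : ℂ) : MeromorphicAt riemannZeta z := by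
  by_cases hz : z = 1
  · subst hz
    have h1 : MeromorphicAt (fun s : ℂ => (s - 1)⁻¹ * Z1 s) 1 := by
      refine MeromorphicAt.mul ?_ Z1_analytic.meromorphicAt
      exact ((analyticAt_id.sub analyticAt_const).meromorphicAt).inv
    refine h1.congr ?_
    filter_upwards [self_mem_nhdsWithin] with s hs
    have hs' : s - 1 ≠ 0 := sub_ne_zero.2 hs
    rw [Z1_ne hs, inv_mul_cancel_left₀ hs']
  · refine AnalyticAt.meromorphicAt ?_
    have hd : DifferentiableOn ℂ riemannZeta {s | s ≠ 1} := fun s hs =>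
      (differentiableAt_riemannZeta hs).differentiableWithinAt
    exact hd.analyticAt (isOpen_ne.mem_nhds hz)

lemma zeta_order_one : meromorphicOrderAt riemannZeta 1 = ((-1 : ℤ) : WithTop ℤ) := by
  rw [meromorphicOrderAt_eq_int_iff (zeta_mero 1)]
  refine ⟨Z1, Z1_analytic, by rw [Z1_one]; exact one_ne_zero, ?_⟩
  filter_upwards [self_mem_nhdsWithin] with s hs
  have hs' : s - 1 ≠ 0 := sub_ne_zero.2 hs
  rw [Z1_ne hs, zpow_neg_one, smul_eq_mul, inv_mul_cancel_left₀ hs']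

/-- the part of `log ζ` coming from the higher powers of the primes -/
noncomputable def Mz (z : ℂ) : ℂ :=
  ∑' p : Nat.Primes, (-Complex.log (1 - ((p : ℕ) : ℂ) ^ (-z)) - ((p : ℕ) : ℂ) ^ (-z))

lemma p_norm (p : Nat.Primes) (z : ℂ) : ‖((p : ℕ) : ℂ) ^ (-z)‖ = ((p : ℕ) : ℝ) ^ (-z.re) := by
  rw [Complex.norm_natCast_cpow_of_pos p.2.pos, Complex.neg_re]

lemma p_small (p : Nat.Primes) (z : ℂ) (hz : 5 / 6 < z.re) : ‖((p : ℕ) : ℂ) ^ (-z)‖ ≤ 3 / 4 := by
  rw [p_norm]
  have hp2 : (2 : ℝ) ≤ ((p : ℕ) : ℝ) := by exact_mod_cast p.2.two_le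
  have h1 : ((p : ℕ) : ℝ) ^ (-z.re) ≤ (2 : ℝ) ^ (-(1 / 2 : ℝ)) := by
    calc ((p : ℕ) : ℝ) ^ (-z.re) ≤ ((p : ℕ) : ℝ) ^ (-(1 / 2 : ℝ)) := by
          apply Real.rpow_le_rpow_of_exponent_le (by linarith)
          linarith
      _ ≤ (2 : ℝ) ^ (-(1 / 2 : ℝ)) :=
          Real.rpow_le_rpow_of_nonpos (by norm_num) hp2 (by norm_num)
  refine h1.trans ?_
  rw [Real.rpow_neg (by norm_num), ← Real.sqrt_eq_rpow, inv_le_comm₀ (by positivity) (by norm_num)]
  apply Real.le_sqrt_of_sq_le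
  norm_num

lemma M_term_norm (p : Nat.Primes) (z : ℂ) (hz : 5 / 6 < z.re) :
    ‖-Complex.log (1 - ((p : ℕ) : ℂ) ^ (-z)) - ((p : ℕ) : ℂ) ^ (-z)‖ ≤
      2 * ((p : ℕ) : ℝ) ^ (-(5 / 3 : ℝ)) := by
  set w := ((p : ℕ) : ℂ) ^ (-z) with hw
  have h0 := p_small p z hz
  rw [← hw] at h0
  have h1 : ‖-w‖ < 1 := by rw [norm_neg]; linarith
  have h3 := Complex.norm_log_one_add_sub_self_le h1
  rw [norm_neg] at h3
  have h4 : -Complex.log (1 - w) - w = -(Complex.log (1 + -w) - -w) := by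
    rw [← sub_eq_add_neg 1 w]
    ring
  rw [h4, norm_neg]
  refine h3.trans ?_
  have h8 : (1 - ‖w‖)⁻¹ ≤ 4 := by
    rw [inv_le_comm₀ (by linarith) (by norm_num)]
    linarith
  have hp1 : (1 : ℝ) ≤ ((p : ℕ) : ℝ) := by exact_mod_cast p.2.one_lt.le
  have h9 : ‖w‖ ^ 2 ≤ ((p : ℕ) : ℝ) ^ (-(5 / 3 : ℝ)) := by
    rw [hw, p_norm, ← Real.rpow_natCast, ← Real.rpow_mul (by linarith)]
    apply Real.rpow_le_rpow_of_exponent_le hp1
    push_cast
    linarith
  have h10 : ‖w‖ ^ 2 * (1 - ‖w‖)⁻¹ ≤ ((p : ℕ) : ℝ) ^ (-(5 / 3 : ℝ)) * 4 := by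
    apply mul_le_mul h9 h8
    · rw [inv_nonneg]; linarith
    · positivity
  linarith

lemma M_summable : Summable (fun p : Nat.Primes => 2 * ((p : ℕ) : ℝ) ^ (-(5 / 3 : ℝ))) :=
  (Nat.Primes.summable_rpow.2 (by norm_num)).mul_left 2

lemma M_diff : DifferentiableOn ℂ Mz {z | 5 / 6 < z.re} := by
  refine Complex.differentiableOn_tsum_of_summable_norm M_summable ?_
    (isOpen_lt continuous_const Complex.continuous_re) (fun p z hz => M_term_norm p z hz)
  intro p z hz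
  have hq : ((p : ℕ) : ℂ) ≠ 0 := by exact_mod_cast p.2.pos.ne'
  have d1 : DifferentiableAt ℂ (fun s : ℂ => ((p : ℕ) : ℂ) ^ (-s)) z :=
    (differentiableAt_id.neg).const_cpow (Or.inl hq)
  have hsl : 1 - ((p : ℕ) : ℂ) ^ (-z) ∈ Complex.slitPlane := by
    rw [sub_eq_add_neg]
    apply Complex.mem_slitPlane_of_norm_lt_one
    rw [norm_neg]
    have := p_small p z hz
    linarith
  exact ((((differentiableAt_const _).sub d1).clog hsl).neg.sub d1).differentiableWithinAt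

lemma p_summable (z : ℂ) (hz : 1 < z.re) :
    Summable (fun p : Nat.Primes => ((p : ℕ) : ℂ) ^ (-z)) := by
  refine Summable.of_norm_bounded (Nat.Primes.summable_rpow.2 (show -z.re < -1 by linarith))
    (fun p => ?_)
  rw [p_norm]

/-- the exponential of the prime zeta function -/
theorem exp_prime (z : ℂ) (hz : 1 < z.re) (r : ℕ) :
    Complex.exp (-(r : ℂ) * ∑' p : Nat.Primes, ((p : ℕ) : ℂ) ^ (-z)) =
      Complex.exp ((r : ℂ) * Mz z) * ((riemannZeta z)⁻¹) ^ r := by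
  have h1 : Summable (fun p : Nat.Primes =>
      -Complex.log (1 - ((p : ℕ) : ℂ) ^ (-z)) - ((p : ℕ) : ℂ) ^ (-z)) :=
    Summable.of_norm_bounded M_summable (fun p => M_term_norm p z (by linarith))
  have h2 : ∑' p : Nat.Primes, -Complex.log (1 - ((p : ℕ) : ℂ) ^ (-z)) =
      Mz z + ∑' p : Nat.Primes, ((p : ℕ) : ℂ) ^ (-z) := by
    rw [Mz, ← h1.tsum_add (p_summable z hz)]
    apply tsum_congr
    intro p
    ring
  have h3 := riemannZeta_eulerProduct_exp_log hz
  rw [h2, Complex.exp_add] at h3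
  rw [← h3, mul_inv, mul_pow, ← Complex.exp_neg, ← Complex.exp_neg, ← Complex.exp_nat_mul,
    ← Complex.exp_nat_mul, ← Complex.exp_add, ← Complex.exp_add]
  congr 1
  ring

end Pool.Agent.TH958.An
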