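import Pool.Agent.TH958.An.Core
import Pool.Agent.TH958.An.Zeta

/-!
# The continuation of the Euler product and its order of vanishing
-/

set_option autoImplicit false

namespace Pool.Agent.TH958.An

open Pool.Agent.H126R3 (Qc Qc_pos Qc_rpow summable_Q)

theorem summ_ind (K a : ℝ) (hK : 0 ≤ K) (ha : a < -1) (j : ℕ) :
    Summable (fun c : Nat.Primes × ℕ =>
      (K * ((c.1 : ℕ) : ℝ) ^ a) * (if c.2 = j then (1 : ℝ) else 0)) := by
  have g1 : Summable (fun p : Nat.Primes => K * ((p : ℕ) : ℝ) ^ a) :=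
    (Nat.Primes.summable_rpow.2 ha).mul_left K
  have g2 : Summable (fun k : ℕ => if k = j then (1 : ℝ) else 0) :=
    (hasSum_ite_eq j (1 : ℝ)).summable
  exact g1.mul_of_nonneg g2 (fun p => by positivity) (fun k => by
    change (0 : ℝ) ≤ if k = j then (1 : ℝ) else 0
    split_ifs <;> norm_num)

section
variable {Y : Type} {pk : Y → Nat.Primes × ℕ} {e : ℕ} (D : Dat pk e) (r : ℕ)

/-- the sums of traces without their main term -/
noncomputable def Am (c : Nat.Primes × ℕ) : ℝ :=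
  Ac D c + if c.2 = 0 then (r : ℝ) * (Qc c : ℝ) ^ (e : ℝ) else 0

theorem sumAm (K : ℝ) (hK : 0 ≤ K)
    (b0 : ∀ p : Nat.Primes, |Ac D (p, 0) + r * ((p : ℕ) : ℝ) ^ (e : ℝ)| ≤
      K * ((p : ℕ) : ℝ) ^ ((e : ℝ) - 1 / 2))
    (b1 : ∀ p : Nat.Primes, |Ac D (p, 1)| ≤ K * ((p : ℕ) : ℝ) ^ (2 * (e : ℝ)))
    (σ₁ : ℝ) (hσ : (e : ℝ) + 5 / 6 < σ₁) :
    Summable (fun c => |Am D r c| * (Qc c : ℝ) ^ (-σ₁)) := by
  have s0 := summ_ind K ((e : ℝ) - 1 / 2 - σ₁) hK (by linarith) 0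
  have s1 := summ_ind K (2 * (e : ℝ) - 2 * σ₁) hK (by linarith) 1
  have s2 := (summable_Q (σ₁ - e - 1 / 2) (by linarith) 2
    (by push_cast; linarith)).mul_left (2 * D.C)
  have hC := D.hC
  refine Summable.of_nonneg_of_le (fun c => mul_nonneg (abs_nonneg _)
    (Real.rpow_nonneg (Nat.cast_nonneg _) _)) (fun c => ?_) ((s0.add s1).add s2)
  have hp0 : (0 : ℝ) < ((c.1 : ℕ) : ℝ) := by exact_mod_cast c.1.2.pos
  have hQ0 : (0 : ℝ) < Qc c := by exact_mod_cast Qc_pos c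
  obtain ⟨p, k⟩ := c
  change |Am D r (p, k)| * (Qc (p, k) : ℝ) ^ (-σ₁) ≤
    (K * ((p : ℕ) : ℝ) ^ ((e : ℝ) - 1 / 2 - σ₁)) * (if k = 0 then (1 : ℝ) else 0) +
    (K * ((p : ℕ) : ℝ) ^ (2 * (e : ℝ) - 2 * σ₁)) * (if k = 1 then (1 : ℝ) else 0) +
    2 * D.C * (if 2 ≤ k then (Qc (p, k) : ℝ) ^ (-(σ₁ - e - 1 / 2)) else 0)
  change (0 : ℝ) < ((p : ℕ) : ℝ) at hp0
  rcases Nat.lt_or_ge k 2 with hk | hk
  · rcases Nat.lt_or_ge k 1 with hk' | hk'
    · have hk0 : k = 0 := by omega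
      subst hk0
      have hQp : (Qc (p, 0) : ℝ) = ((p : ℕ) : ℝ) := by
        rw [Qc]
        simp
      have e1 : |Am D r (p, 0)| * (Qc (p, 0) : ℝ) ^ (-σ₁) ≤
          K * ((p : ℕ) : ℝ) ^ ((e : ℝ) - 1 / 2 - σ₁) := by
        have e2 : |Am D r (p, 0)| ≤ K * ((p : ℕ) : ℝ) ^ ((e : ℝ) - 1 / 2) := by
          have := b0 p
          rw [Am, if_pos rfl, hQp]
          exact this
        calc |Am D r (p, 0)| * (Qc (p, 0) : ℝ) ^ (-σ₁) ≤
            (K * ((p : ℕ) : ℝ) ^ ((e : ℝ) - 1 / 2)) * (Qc (p, 0) : ℝ) ^ (-σ₁) :=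
              mul_le_mul_of_nonneg_right e2 (by positivity)
          _ = K * ((p : ℕ) : ℝ) ^ ((e : ℝ) - 1 / 2 - σ₁) := by
              rw [hQp, mul_assoc, ← Real.rpow_add hp0]
              congr 2
      rw [if_pos rfl, if_neg (by norm_num), if_neg (by norm_num), mul_one, mul_zero, mul_zero,
        add_zero, add_zero]
      exact e1
    · have hk1 : k = 1 := by omega
      subst hk1
      have e1 : |Am D r (p, 1)| * (Qc (p, 1) : ℝ) ^ (-σ₁) ≤
          K * ((p : ℕ) : ℝ) ^ (2 * (e : ℝ) - 2 * σ₁) := by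
        have e2 : |Am D r (p, 1)| ≤ K * ((p : ℕ) : ℝ) ^ (2 * (e : ℝ)) := by
          have := b1 p
          rw [Am, if_neg (by norm_num), add_zero]
          exact this
        calc |Am D r (p, 1)| * (Qc (p, 1) : ℝ) ^ (-σ₁) ≤
            (K * ((p : ℕ) : ℝ) ^ (2 * (e : ℝ))) * (Qc (p, 1) : ℝ) ^ (-σ₁) :=
              mul_le_mul_of_nonneg_right e2 (by positivity)
          _ = K * ((p : ℕ) : ℝ) ^ (2 * (e : ℝ) - 2 * σ₁) := by
              rw [Qc_rpow, mul_assoc, ← Real.rpow_add hp0]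
              congr 2
              push_cast
              ring
      rw [if_neg (by norm_num), if_pos rfl, if_neg (by norm_num), mul_one, mul_zero, mul_zero,
        add_zero, zero_add]
      exact e1
  · have e1 : |Am D r (p, k)| * (Qc (p, k) : ℝ) ^ (-σ₁) ≤
        2 * D.C * (Qc (p, k) : ℝ) ^ (-(σ₁ - e - 1 / 2)) := by
      have e2 := Ac_trivial D (p, k)
      have e3 : Am D r (p, k) = Ac D (p, k) := by
        rw [Am, if_neg (by simp only; omega), add_zero]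
      rw [e3]
      calc |Ac D (p, k)| * (Qc (p, k) : ℝ) ^ (-σ₁) ≤
          (2 * D.C * (Qc (p, k) : ℝ) ^ ((e : ℝ) + 1 / 2)) *
            (Qc (p, k) : ℝ) ^ (-σ₁) := mul_le_mul_of_nonneg_right e2 (by positivity)
        _ = 2 * D.C * (Qc (p, k) : ℝ) ^ (-(σ₁ - e - 1 / 2)) := by
            rw [mul_assoc, ← Real.rpow_add hQ0]
            congr 2
            ring
    have hk0 : k ≠ 0 := by omega
    have hk1 : k ≠ 1 := by omega
    rw [if_neg hk0, if_neg hk1, if_pos hk, mul_zero, mul_zero, zero_add, zero_add]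
    exact e1

theorem Am_term_norm (c : Nat.Primes × ℕ) (s : ℂ) :
    ‖(Am D r c : ℂ) * (Qc c : ℂ) ^ (-s)‖ = |Am D r c| * (Qc c : ℝ) ^ (-s.re) := by
  rw [norm_mul, Complex.norm_natCast_cpow_of_pos (Qc_pos c), Complex.norm_real, Real.norm_eq_abs,
    Complex.neg_re]

theorem Am_tsum_diff (σ₀ : ℝ) (hsum : ∀ σ₁, σ₀ < σ₁ →
    Summable (fun c => |Am D r c| * (Qc c : ℝ) ^ (-σ₁))) :
    DifferentiableOn ℂ (fun s => ∑' c : Nat.Primes × ℕ, (Am D r c : ℂ) * (Qc c : ℂ) ^ (-s))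
      {s : ℂ | σ₀ < s.re} := by
  intro s hs
  simp only [Set.mem_ofPred_eq] at hs
  obtain ⟨σ₁, h1, h3⟩ := exists_between hs
  have hopen : IsOpen {s : ℂ | σ₁ < s.re} := isOpen_lt continuous_const Complex.continuous_re
  have hd : DifferentiableOn ℂ
      (fun s => ∑' c : Nat.Primes × ℕ, (Am D r c : ℂ) * (Qc c : ℂ) ^ (-s))
      {s : ℂ | σ₁ < s.re} := by
    refine Complex.differentiableOn_tsum_of_summable_norm (hsum σ₁ h1) ?_ hopen ?_
    · intro c s _
      have hq : (Qc c : ℂ) ≠ 0 := by exact_mod_cast (Qc_pos c).ne'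
      exact (((differentiableAt_id.neg).const_cpow (Or.inl hq)).const_mul _).differentiableWithinAt
    · intro c s hs
      simp only [Set.mem_ofPred_eq] at hs
      rw [Am_term_norm]
      apply mul_le_mul_of_nonneg_left _ (abs_nonneg _)
      apply Real.rpow_le_rpow_of_exponent_le (by exact_mod_cast Qc_pos c)
      linarith
  exact (hd.differentiableAt (hopen.mem_nhds h3)).differentiableWithinAt

theorem Am_sum (s : ℂ) (hs : (e : ℝ) + 3 / 2 < s.re)
    (hsum : Summable (fun c => |Am D r c| * (Qc c : ℝ) ^ (-s.re))) :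
    ∑' c : Nat.Primes × ℕ, (Ac D c : ℂ) * (Qc c : ℂ) ^ (-s) =
      ∑' c : Nat.Primes × ℕ, (Am D r c : ℂ) * (Qc c : ℂ) ^ (-s) -
        (r : ℂ) * ∑' p : Nat.Primes, ((p : ℕ) : ℂ) ^ (-(s - e)) := by
  set f : Nat.Primes × ℕ → ℂ := fun c =>
    if c.2 = 0 then (r : ℂ) * ((c.1 : ℕ) : ℂ) ^ (-(s - e)) else 0 with hf
  set g : Nat.Primes → Nat.Primes × ℕ := fun p => (p, 0) with hg
  have hginj : Function.Injective g := fun p q h => (Prod.mk.injEq ..).mp h |>.1
  have hsupp : Function.support f ⊆ Set.range g := by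
    intro c hc
    rw [Function.mem_support, hf] at hc
    obtain ⟨p, k⟩ := c
    by_cases hk : k = 0
    · subst hk; exact ⟨p, rfl⟩
    · exact absurd (if_neg hk) hc
  have hfg : ∀ p, f (g p) = (r : ℂ) * ((p : ℕ) : ℂ) ^ (-(s - e)) := by
    intro p
    rw [hf, hg]
    simp
  have hz : 1 < (s - e).re := by
    rw [Complex.sub_re, Complex.natCast_re]
    linarith
  have hs1 : Summable (fun p => f (g p)) := by
    simp_rw [hfg]
    exact (p_summable (s - e) hz).mul_left _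
  have hs2 : Summable f := (hginj.summable_iff (fun c hc => by
    by_contra h
    exact hc (hsupp h))).1 hs1
  have h1 : ∑' c, f c = (r : ℂ) * ∑' p : Nat.Primes, ((p : ℕ) : ℂ) ^ (-(s - e)) := by
    rw [← hginj.tsum_eq hsupp, ← tsum_mul_left]
    exact tsum_congr hfg
  have hs3 : Summable (fun c => (Am D r c : ℂ) * (Qc c : ℂ) ^ (-s)) := by
    refine Summable.of_norm_bounded hsum (fun c => ?_)
    rw [Am_term_norm]
  rw [← h1, ← hs3.tsum_sub hs2]
  apply tsum_congr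
  intro c
  obtain ⟨p, k⟩ := c
  rw [Am, hf]
  by_cases hk : k = 0
  · subst hk
    have hp0 : ((p : ℕ) : ℂ) ≠ 0 := by exact_mod_cast p.2.pos.ne'
    have hQp : Qc (p, 0) = (p : ℕ) := by
      rw [Qc]
      simp
    simp only [if_true, hQp]
    have h5 : ((p : ℕ) : ℂ) ^ (-(s - e)) = ((((p : ℕ) : ℝ) ^ (e : ℝ) : ℝ) : ℂ) *
        ((p : ℕ) : ℂ) ^ (-s) := by
      rw [show -(s - (e : ℂ)) = (e : ℂ) + -s by ring, Complex.cpow_add _ _ hp0]
      congr 1
      rw [Complex.ofReal_cpow (Nat.cast_nonneg _)]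
      push_cast
      rfl
    rw [h5]
    push_cast
    ring
  · simp only [if_neg hk]
    push_cast
    ring

/-- the continuation -/
noncomputable def Phi (s : ℂ) : ℂ :=
  Complex.exp (∑' y : Y, rho D y s + ∑' c : Nat.Primes × ℕ, (Am D r c : ℂ) * (Qc c : ℂ) ^ (-s) +
    (r : ℂ) * Mz (s - e)) * ((riemannZeta (s - e))⁻¹) ^ r

theorem Phi_eq (s : ℂ) (hs : (e : ℝ) + 3 / 2 < s.re)
    (hsum : Summable (fun c => |Am D r c| * (Qc c : ℝ) ^ (-s.re))) :
    Complex.exp (∑' y : Y, rho D y s +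
        ∑' c : Nat.Primes × ℕ, (Ac D c : ℂ) * (Qc c : ℂ) ^ (-s)) = Phi D r s := by
  have hz : 1 < (s - e).re := by
    rw [Complex.sub_re, Complex.natCast_re]
    linarith
  rw [Am_sum D r s hs hsum, Phi, Complex.exp_add _ ((r : ℂ) * Mz (s - e)), mul_assoc,
    ← exp_prime (s - e) hz r, ← Complex.exp_add]
  congr 1
  ring

/-- The analytic core: the Euler product, its continuation and the order of vanishing. -/
theorem core (K : ℝ) (hK : 0 ≤ K)
    (b0 : ∀ p : Nat.Primes, |Ac D (p, 0) + r * ((p : ℕ) : ℝ) ^ (e : ℝ)| ≤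
      K * ((p : ℕ) : ℝ) ^ ((e : ℝ) - 1 / 2))
    (b1 : ∀ p : Nat.Primes, |Ac D (p, 1)| ≤ K * ((p : ℕ) : ℝ) ^ (2 * (e : ℝ))) :
    ∃ Φ : ℂ → ℂ,
      (∀ s : ℂ, (e : ℝ) + 3 / 2 < s.re → HasProd (fun y : {y : Y // D.G y} =>
        (1 - (D.ag y.1 : ℂ) * (qq pk y.1 : ℂ) ^ (-s) + (qq pk y.1 : ℂ) ^ (1 - 2 * s))⁻¹) (Φ s)) ∧
      MeromorphicOn Φ {s : ℂ | (e : ℝ) + 5 / 6 < s.re} ∧
      meromorphicOrderAt Φ ((e : ℂ) + 1) = ((r : ℤ) : WithTop ℤ) ∧
      (∀ s : ℂ, s.re = (e : ℝ) + 1 → s ≠ (e : ℂ) + 1 → AnalyticAt ℂ Φ s ∧ Φ s ≠ 0) := by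
  have hsum := sumAm D r K hK b0 b1
  have hopen : IsOpen {s : ℂ | (e : ℝ) + 5 / 6 < s.re} :=
    isOpen_lt continuous_const Complex.continuous_re
  set E : ℂ → ℂ := fun s => Complex.exp (∑' y : Y, rho D y s +
    ∑' c : Nat.Primes × ℕ, (Am D r c : ℂ) * (Qc c : ℂ) ^ (-s) + (r : ℂ) * Mz (s - e)) with hE
  have hEd : DifferentiableOn ℂ E {s : ℂ | (e : ℝ) + 5 / 6 < s.re} := by
    refine ((rho_tsum_diff D).add (Am_tsum_diff D r _ hsum) |>.add ?_).cexp
    refine DifferentiableOn.const_mul ?_ _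
    refine M_diff.comp (differentiableOn_id.sub_const _) ?_
    intro s hs
    simp only [Set.mem_ofPred_eq, id, Complex.sub_re, Complex.natCast_re] at hs ⊢
    linarith
  have hEan : ∀ s, (e : ℝ) + 5 / 6 < s.re → AnalyticAt ℂ E s := fun s hs =>
    hEd.analyticAt (hopen.mem_nhds hs)
  have han : ∀ s : ℂ, AnalyticAt ℂ (fun t : ℂ => t - (e : ℂ)) s := fun s => by fun_prop
  have hζ : ∀ s : ℂ, MeromorphicAt (fun s => riemannZeta (s - e)) s := by
    intro s
    have h1 : MeromorphicAt riemannZeta ((fun t : ℂ => t - (e : ℂ)) s) := zeta_mero _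
    exact MeromorphicAt.comp_analyticAt (f := riemannZeta) (g := fun t : ℂ => t - (e : ℂ))
      (x := s) h1 (han s)
  refine ⟨Phi D r, ?_, ?_, ?_, ?_⟩
  · intro s hs
    rw [← Phi_eq D r s hs (hsum _ (by linarith))]
    exact hasProd_good D s hs
  · intro s hs
    exact (hEan s hs).meromorphicAt.mul ((hζ s).inv.pow r)
  · have hmem : (e : ℝ) + 5 / 6 < ((e : ℂ) + 1).re := by
      rw [Complex.add_re, Complex.natCast_re, Complex.one_re]
      linarith
    have h1 : Phi D r = E * ((fun s => riemannZeta (s - (e : ℂ)))⁻¹) ^ r := rfl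
    rw [h1, meromorphicOrderAt_mul (hEan _ hmem).meromorphicAt ((hζ _).inv.pow r),
      (hEan _ hmem).meromorphicOrderAt_eq,
      (hEan _ hmem).analyticOrderAt_eq_zero.2 (Complex.exp_ne_zero _)]
    have h2 : meromorphicOrderAt (((fun s => riemannZeta (s - (e : ℂ)))⁻¹) ^ r) ((e : ℂ) + 1) =
        ((r : ℤ) : WithTop ℤ) := by
      rw [meromorphicOrderAt_pow (hζ _).inv, meromorphicOrderAt_inv]
      have h4 := meromorphicOrderAt_comp_sub_const_eq_meromorphicOrderAt (f := riemannZeta)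
        (x := (e : ℂ) + 1) (c := (e : ℂ))
      have h5 : (e : ℂ) + 1 - e = 1 := by ring
      rw [h5, zeta_order_one] at h4
      have h6 : (riemannZeta ∘ fun x => x - (e : ℂ)) = fun s => riemannZeta (s - (e : ℂ)) := rfl
      rw [h6] at h4
      rw [h4]
      have h7 : -(((-1 : ℤ) : WithTop ℤ)) = ((1 : ℤ) : WithTop ℤ) := rfl
      rw [h7]
      norm_cast
      simp
    rw [h2]
    simp
  · intro s hs hne
    have hmem : (e : ℝ) + 5 / 6 < s.re := by rw [hs]; linarith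
    have hre : 1 ≤ (s - e).re := by
      rw [Complex.sub_re, Complex.natCast_re, hs]
      linarith
    have hne1 : s - e ≠ 1 := by
      intro h
      apply hne
      linear_combination h
    have hz0 := riemannZeta_ne_zero_of_one_le_re hre
    have hzan : AnalyticAt ℂ (fun s => riemannZeta (s - e)) s := by
      have hd : DifferentiableOn ℂ riemannZeta {s | s ≠ 1} := fun s hs =>
        (differentiableAt_riemannZeta hs).differentiableWithinAt
      have h1 : AnalyticAt ℂ riemannZeta ((fun t : ℂ => t - (e : ℂ)) s) :=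
        hd.analyticAt (isOpen_ne.mem_nhds hne1)
      exact AnalyticAt.comp (g := riemannZeta) (f := fun t : ℂ => t - (e : ℂ)) (x := s) h1 (han s)
    refine ⟨(hEan s hmem).mul ((hzan.inv hz0).pow r), ?_⟩
    exact mul_ne_zero (Complex.exp_ne_zero _) (pow_ne_zero _ (inv_ne_zero hz0))

end

end Pool.Agent.TH958.An
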