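import Pool.Agent.TH958.An.Pts
import Pool.Agent.TH958.An.Main
import Pool.Agent.TH958.FP.Transfer
import Pool.Agent.H126R3.FinalB

/-!
# Euler products of elliptic curves over schemes of finite type over the integers
-/

set_option autoImplicit false

namespace Pool.Agent.TH958.An

open Pool.Agent.H126R3 (exists_F le_of_cast_zero Qc Qc_pos Qc_rpow card_ringHom)
open Pool.Agent.TH958.FP (pmap pmap_some)
open WeierstrassCurve WeierstrassCurve.Affine

/-- the trace of Frobenius `q + 1 - #E(κ)` of a Weierstrass curve over a finite field -/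
noncomputable def trE {κ : Type} [Field κ] (W : WeierstrassCurve κ) : ℤ :=
  (Nat.card κ : ℤ) + 1 - Nat.card W.toAffine.Point

theorem trE_map {κ κ' : Type} [Field κ] [Field κ'] (ψ : κ →+* κ') (hψ : Function.Bijective ψ)
    (W : WeierstrassCurve κ) : trE (W.map ψ) = trE W := by
  classical
  have h1 : Nat.card κ = Nat.card κ' := Nat.card_eq_of_bijective _ hψ
  have h2 : Nat.card W.toAffine.Point = Nat.card (W.map ψ).toAffine.Point := by
    refine Nat.card_eq_of_bijective (pmap ψ W) ⟨?_, ?_⟩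
    · rintro (_ | ⟨x, y, h⟩) (_ | ⟨x', y', h'⟩) he
      · rfl
      · exact absurd he.symm (Point.some_ne_zero _)
      · exact absurd he (Point.some_ne_zero _)
      · rw [pmap_some, pmap_some] at he
        obtain ⟨h3, h4⟩ := (Point.some.injEq ..).mp he
        have h5 := hψ.1 h3
        have h6 := hψ.1 h4
        subst h5 h6
        rfl
    · rintro (_ | ⟨X, Y, h⟩)
      · exact ⟨0, rfl⟩
      · obtain ⟨x, rfl⟩ := hψ.2 X
        obtain ⟨y, rfl⟩ := hψ.2 Y
        exact ⟨Point.some _ _ ((W.toAffine.map_nonsingular ψ.injective x y).1 h), rfl⟩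
  rw [trE, trE, h1, h2]

section
variable {R : Type} [CommRing R]

/-- the trace of Frobenius at the closed point `y` -/
noncomputable def ay (E : WeierstrassCurve R) (y : Pt R) : ℤ :=
  trE (E.map (Ideal.Quotient.mk y.asIdeal))

variable [Algebra.FiniteType ℤ R]

theorem res_bij {F : Type} [Field F] [Fintype F] (c : Nat.Primes × ℕ)
    (h : Fintype.card F = (c.1 : ℕ) ^ (c.2 + 1)) (φ : R →+* F) (hφ : pk (ptOf φ) = c) :
    Function.Bijective (fiberEquiv (F := F) (ptOf φ) ⟨φ, rfl⟩) := by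
  have := Fintype.ofFinite (Res (ptOf φ))
  have hc : Fintype.card (Res (ptOf φ)) = Fintype.card F := by
    rw [h, ← Nat.card_eq_fintype_card]
    have := qy_eq (ptOf φ)
    rw [hφ] at this
    exact this
  exact (Fintype.bijective_iff_injective_and_card _).2 ⟨RingHom.injective _, hc⟩

theorem ay_ptOf {F : Type} [Field F] [Fintype F] (c : Nat.Primes × ℕ)
    (h : Fintype.card F = (c.1 : ℕ) ^ (c.2 + 1)) (E : WeierstrassCurve R)
    (φ : R →+* F) (hφ : pk (ptOf φ) = c) : ay E (ptOf φ) = trE (E.map φ) := by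
  rw [ay, ← trE_map _ (res_bij c h φ hφ), WeierstrassCurve.map_map]
  congr 2

/-- the points with values in `F` above the closed points of type `c` -/
noncomputable def fibSigma (c : Nat.Primes × ℕ) (F : Type) [Field F] [Finite F] :
    {φ : R →+* F // pk (ptOf φ) = c} ≃ Σ y : {y : Pt R // pk y = c}, {φ : R →+* F // ptOf φ = y.1} where
  toFun φ := ⟨⟨ptOf φ.1, φ.2⟩, ⟨φ.1, rfl⟩⟩
  invFun w := ⟨w.2.1, by rw [w.2.2]; exact w.1.2⟩
  left_inv φ := rfl
  right_inv w := by
    rcases w with ⟨⟨y, hy⟩, ⟨φ, hφ⟩⟩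
    change ptOf φ = y at hφ
    subst hφ
    rfl

instance finite_Yc (c : Nat.Primes × ℕ) : Finite {y : Pt R // pk y = c} := by
  obtain ⟨F, _, _, hF⟩ := exists_F c
  have h : Function.Surjective (fun φ : {φ : R →+* F // pk (ptOf φ) = c} =>
      (⟨ptOf φ.1, φ.2⟩ : {y : Pt R // pk y = c})) := by
    intro y
    have h1 := card_fiber y.1 F c.1 c.2 hF y.2
    have h2 : Nonempty {φ : R →+* F // ptOf φ = y.1} := by
      rw [← not_isEmpty_iff]
      intro h3
      rw [Nat.card_of_isEmpty] at h1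
      omega
    obtain ⟨φ, hφ⟩ := h2
    exact ⟨⟨φ, by rw [hφ]; exact y.2⟩, Subtype.ext hφ⟩
  exact Finite.of_surjective _ h

theorem card_Yc_le (c : Nat.Primes × ℕ) {F : Type} [Field F] [Fintype F]
    (hF : Fintype.card F = (c.1 : ℕ) ^ (c.2 + 1)) :
    Nat.card {y : Pt R // pk y = c} ≤ Nat.card (R →+* F) := by
  have h : ∀ y : {y : Pt R // pk y = c}, ∃ φ : R →+* F, ptOf φ = y.1 := by
    intro y
    have h1 := card_fiber y.1 F c.1 c.2 hF y.2
    have h2 : Nonempty {φ : R →+* F // ptOf φ = y.1} := by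
      rw [← not_isEmpty_iff]
      intro h3
      rw [Nat.card_of_isEmpty] at h1
      omega
    obtain ⟨φ, hφ⟩ := h2
    exact ⟨φ, hφ⟩
  choose f hf using h
  refine Nat.card_le_card_of_injective f ?_
  intro y y' h
  apply Subtype.ext
  rw [← hf y, ← hf y', h]

open Classical in
theorem sum_fib (c : Nat.Primes × ℕ) {F : Type} [Field F] [Fintype F]
    [Fintype {y : Pt R // pk y = c}] [Fintype {φ : R →+* F // pk (ptOf φ) = c}]
    (hF : Fintype.card F = (c.1 : ℕ) ^ (c.2 + 1)) (g : Pt R → ℝ) :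
    ∑ φ : {φ : R →+* F // pk (ptOf φ) = c}, g (ptOf φ.1) =
      (c.2 + 1 : ℕ) * ∑ y : {y : Pt R // pk y = c}, g y.1 := by
  letI : ∀ y : {y : Pt R // pk y = c}, Fintype {φ : R →+* F // ptOf φ = y.1} :=
    fun y => Fintype.ofFinite _
  have h1 : ∑ φ : {φ : R →+* F // pk (ptOf φ) = c}, g (ptOf φ.1) =
      ∑ w : (Σ y : {y : Pt R // pk y = c}, {φ : R →+* F // ptOf φ = y.1}), g w.1.1 :=
    Fintype.sum_equiv (fibSigma c F) _ (fun w => g w.1.1) (fun φ => rfl)
  rw [h1, Fintype.sum_sigma, Finset.mul_sum]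
  apply Finset.sum_congr rfl
  intro y _
  have h2 : ∑ x : {φ : R →+* F // ptOf φ = y.1}, g y.1 = (c.2 + 1 : ℕ) * g y.1 := by
    rw [Finset.sum_const, Finset.card_univ, ← Nat.card_eq_fintype_card,
      card_fiber y.1 F c.1 c.2 hF y.2, nsmul_eq_mul]
  exact h2

/-- the trace at a point with values in `F`, zero outside the model -/
noncomputable def tF (E : WeierstrassCurve R) (N : R) {F : Type} [Field F] (φ : R →+* F) : ℝ :=
  open Classical in if φ N ≠ 0 then (trE (E.map φ) : ℝ) else 0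

open Classical in
/-- the trace at a closed point, zero outside the model -/
noncomputable def agE (E : WeierstrassCurve R) (N : R) (y : Pt R) : ℝ :=
  if N ∉ y.asIdeal then (ay E y : ℝ) else 0

theorem agE_ptOf {F : Type} [Field F] [Fintype F] (c : Nat.Primes × ℕ)
    (h : Fintype.card F = (c.1 : ℕ) ^ (c.2 + 1)) (E : WeierstrassCurve R) (N : R)
    (φ : R →+* F) (hφ : pk (ptOf φ) = c) : agE E N (ptOf φ) = tF E N φ := by
  rw [agE, tF, ay_ptOf c h E φ hφ]
  by_cases h0 : φ N = 0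
  · rw [if_neg (not_not.2 ((mem_ptOf φ N).2 h0)), if_neg (not_not.2 h0)]
  · rw [if_pos (fun h1 => h0 ((mem_ptOf φ N).1 h1)), if_pos h0]

theorem pk_zero (p : Nat.Primes) {F : Type} [Field F] [Fintype F]
    (hF : Fintype.card F = (p : ℕ) ^ (0 + 1)) (φ : R →+* F) : pk (ptOf φ) = (p, 0) := by
  have := pk_ptOf F φ p 0 hF
  refine Prod.ext this.1 ?_
  have h2 := Nat.le_of_dvd (by norm_num) this.2
  change (pk (ptOf φ)).2 = 0
  omega

theorem pk_one (p : Nat.Primes) {F : Type} [Field F] [Fintype F]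
    (hF : Fintype.card F = (p : ℕ) ^ (1 + 1)) (φ : R →+* F) (h : pk (ptOf φ) ≠ (p, 1)) :
    pk (ptOf φ) = (p, 0) := by
  have := pk_ptOf F φ p 1 hF
  refine Prod.ext this.1 ?_
  have h2 := Nat.le_of_dvd (by norm_num) this.2
  have h3 : (pk (ptOf φ)).2 ≠ 1 := fun h4 => h (Prod.ext this.1 h4)
  change (pk (ptOf φ)).2 = 0
  omega

/-- the number of `F`-points which come from the prime field -/
theorem card_compl (p : Nat.Primes) {F F₀ : Type} [Field F] [Fintype F] [Field F₀] [Fintype F₀]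
    (hF : Fintype.card F = (p : ℕ) ^ (1 + 1)) (hF₀ : Fintype.card F₀ = (p : ℕ) ^ (0 + 1)) :
    Nat.card {φ : R →+* F // ¬ pk (ptOf φ) = (p, 1)} ≤ Nat.card (R →+* F₀) := by
  have hpf : Fact (p : ℕ).Prime := ⟨p.2⟩
  refine le_trans (Nat.card_le_card_of_injective
    (fun φ => (⟨ptOf φ.1, pk_one p hF φ.1 φ.2⟩ : {y : Pt R // pk y = (p, 0)})) ?_)
    (card_Yc_le (p, 0) hF₀)
  rintro ⟨φ, hφ⟩ ⟨ψ, hψ⟩ h
  have h1 : ptOf φ = ptOf ψ := congrArg Subtype.val h
  apply Subtype.ext
  -- both factor through the residue field, which is prime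
  have hk := pk_one p hF φ hφ
  have hsub : Subsingleton (Res (ptOf φ) →+* F) := by
    have := Fintype.ofFinite (Res (ptOf φ))
    have hc : Fintype.card (Res (ptOf φ)) = (p : ℕ) := by
      rw [← Nat.card_eq_fintype_card]
      have := qy_eq (ptOf φ)
      rw [hk, pow_one] at this
      exact this
    have e := ZMod.ringEquivOfPrime (Res (ptOf φ)) hpf.out hc
    refine ⟨fun f g => ?_⟩
    have h2 : f.comp (e : ZMod p →+* Res (ptOf φ)) = g.comp (e : ZMod p →+* Res (ptOf φ)) :=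
      Subsingleton.elim _ _
    refine RingHom.ext fun x => ?_
    obtain ⟨z, rfl⟩ := e.surjective x
    exact congrArg (fun k => k z) h2
  have h3 := hsub.elim (fiberEquiv (F := F) (ptOf φ) ⟨φ, rfl⟩)
    (fiberEquiv (F := F) (ptOf φ) ⟨ψ, h1.symm⟩)
  exact congrArg (Subtype.val (p := fun χ : R →+* F => ptOf χ = ptOf φ))
    ((fiberEquiv (F := F) (ptOf φ)).injective h3)

end

end Pool.Agent.TH958.An
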