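import Pool.Agent.TH958.An.Arith

/-!
# The order of vanishing from the sums of traces over finite fields
-/

set_option autoImplicit false

namespace Pool.Agent.TH958.An

open Pool.Agent.H126R3 (exists_F le_of_cast_zero Qc Qc_pos Qc_rpow)

section
variable {R : Type} [CommRing R] [Algebra.FiniteType ℤ R]

theorem qq_eq_qy (y : Pt R) : qq pk y = qy y := by
  rw [qq, Qc, qy_eq]

theorem three_le (N : R) (h2 : (2 : R) ∣ N) (y : Pt R) (hy : N ∉ y.asIdeal) : 3 ≤ qq pk y := by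
  have h : ringChar (Res y) ≠ 2 := by
    intro hc
    apply hy
    obtain ⟨M, rfl⟩ := h2
    have h3 : ((2 : ℕ) : Res y) = 0 := by rw [← hc]; exact ringChar.Nat.cast_ringChar
    have h4 : (2 : R) ∈ y.asIdeal := by
      rw [← Ideal.Quotient.eq_zero_iff_mem]
      have : (2 : R) = ((2 : ℕ) : R) := by simp
      rw [this, map_natCast]
      exact h3
    exact Ideal.mul_mem_right _ _ h4
  rw [ringChar_eq] at h
  have h3 : 3 ≤ ((pk y).1 : ℕ) := by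
    have := (pk y).1.2.two_le
    rcases Nat.lt_or_ge 2 ((pk y).1 : ℕ) with h' | h'
    · exact h'
    · exact absurd (le_antisymm h' this) h
  rw [qq, Qc]
  calc 3 ≤ ((pk y).1 : ℕ) := h3
    _ = ((pk y).1 : ℕ) ^ 1 := (pow_one _).symm
    _ ≤ ((pk y).1 : ℕ) ^ ((pk y).2 + 1) := Nat.pow_le_pow_right (by omega) (by omega)


/-- the data of the Euler product -/
noncomputable def datE (E : WeierstrassCurve R) (N : R) (h2 : (2 : R) ∣ N) (e : ℕ) (he : 1 ≤ e)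
    (hb : ∀ (F : Type) [Field F] [Fintype F] (φ : R →+* F), φ N ≠ 0 →
      |(trE (E.map φ) : ℝ)| ≤ 2 * Real.sqrt (Fintype.card F))
    (C : ℝ) (hC0 : 0 ≤ C) (hC : ∀ (F : Type) [Field F] [Fintype F],
      (Nat.card (R →+* F) : ℝ) ≤ C * (Fintype.card F : ℝ) ^ (e : ℝ)) :
    Dat (pk : Pt R → Nat.Primes × ℕ) e where
  fin := fun c => Fintype.ofFinite _
  C := C
  hC := hC0
  hcard := by
    intro c
    obtain ⟨F, _, _, hF⟩ := exists_F c
    have h1 := hC F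
    have h3 : (Nat.card {y : Pt R // pk y = c} : ℝ) ≤ Nat.card (R →+* F) := by
      exact_mod_cast card_Yc_le (R := R) c hF
    have h4 : (Fintype.card F : ℝ) = (Qc c : ℝ) := by
      rw [hF, Qc]
    rw [h4] at h1
    exact h3.trans h1
  G := fun y => N ∉ y.asIdeal
  ag := agE E N
  hag := by
    classical
    intro y
    rw [agE]
    split_ifs with h
    · rw [abs_zero]; positivity
    · have := Fintype.ofFinite (Res y)
      have h1 := hb (Res y) (Ideal.Quotient.mk y.asIdeal)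
        (fun h0 => h (Ideal.Quotient.eq_zero_iff_mem.1 h0))
      rw [← Nat.card_eq_fintype_card] at h1
      rw [qq_eq_qy]
      exact h1
  h0 := by
    intro y hy
    rw [agE, if_neg hy]
  h3 := fun y hy => three_le N h2 y hy
  he := he

theorem Ac_zero (E : WeierstrassCurve R) (N : R) (p : Nat.Primes) {F : Type} [Field F] [Fintype F]
    (hF : Fintype.card F = (p : ℕ) ^ (0 + 1)) [Fintype {y : Pt R // pk y = (p, 0)}] :
    ∑ y : {y : Pt R // pk y = (p, 0)}, agE E N y.1 = ∑ᶠ φ : R →+* F, tF E N φ := by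
  classical
  let _ : Fintype (R →+* F) := Fintype.ofFinite _
  have h := sum_fib (p, 0) hF (agE E N)
  rw [show (((p, 0) : Nat.Primes × ℕ).2 + 1 : ℕ) = 1 from rfl, Nat.cast_one, one_mul] at h
  rw [← h, finsum_eq_sum_of_fintype]
  let e : {φ : R →+* F // pk (ptOf φ) = (p, 0)} ≃ (R →+* F) :=
    Equiv.subtypeUnivEquiv (pk_zero p hF)
  apply Fintype.sum_equiv e
  intro φ
  exact agE_ptOf (p, 0) hF E N φ.1 φ.2

theorem tF_bound (E : WeierstrassCurve R) (N : R)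
    (hb : ∀ (F : Type) [Field F] [Fintype F] (φ : R →+* F), φ N ≠ 0 →
      |(trE (E.map φ) : ℝ)| ≤ 2 * Real.sqrt (Fintype.card F))
    (F : Type) [Field F] [Fintype F] (φ : R →+* F) :
    |tF E N φ| ≤ 2 * Real.sqrt (Fintype.card F) := by
  classical
  rw [tF]
  by_cases h : φ N = 0
  · rw [if_neg (not_not.2 h), abs_zero]; positivity
  · rw [if_pos h]
    exact hb F φ h

theorem Ac_one (E : WeierstrassCurve R) (N : R)
    (hb : ∀ (F : Type) [Field F] [Fintype F] (φ : R →+* F), φ N ≠ 0 →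
      |(trE (E.map φ) : ℝ)| ≤ 2 * Real.sqrt (Fintype.card F))
    (p : Nat.Primes) {F F₀ : Type} [Field F] [Fintype F] [Field F₀] [Fintype F₀]
    (hF : Fintype.card F = (p : ℕ) ^ (1 + 1)) (hF₀ : Fintype.card F₀ = (p : ℕ) ^ (0 + 1))
    [Fintype {y : Pt R // pk y = (p, 1)}] :
    |∑ y : {y : Pt R // pk y = (p, 1)}, agE E N y.1| ≤ |∑ᶠ φ : R →+* F, tF E N φ| +
      (Nat.card (R →+* F₀) : ℝ) * (p : ℕ) := by
  classical
  let _ : Fintype (R →+* F) := Fintype.ofFinite _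
  have h := sum_fib (p, 1) hF (agE E N)
  have hsq : Real.sqrt (Fintype.card F) = (p : ℕ) := by
    rw [hF]
    push_cast
    exact Real.sqrt_sq (Nat.cast_nonneg _)
  have hg2 : ∀ φ : R →+* F, |tF E N φ| ≤ 2 * (p : ℕ) := by
    intro φ
    rw [← hsq]
    exact tF_bound E N hb F φ
  have hsplit := Fintype.sum_subtype_add_sum_subtype (fun φ : R →+* F => pk (ptOf φ) = (p, 1))
    (tF E N)
  have hcomp : |∑ φ : {φ : R →+* F // ¬ pk (ptOf φ) = (p, 1)}, tF E N φ.1| ≤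
      (Nat.card (R →+* F₀) : ℝ) * (2 * (p : ℕ)) := by
    refine (Finset.abs_sum_le_sum_abs _ _).trans ?_
    refine (Finset.sum_le_sum fun φ _ => hg2 φ.1).trans ?_
    rw [Finset.sum_const, Finset.card_univ, nsmul_eq_mul, ← Nat.card_eq_fintype_card]
    refine mul_le_mul_of_nonneg_right ?_ (by positivity)
    exact_mod_cast card_compl (R := R) p hF hF₀
  have h5 : (2 : ℝ) * ∑ y : {y : Pt R // pk y = (p, 1)}, agE E N y.1 =
      ∑ φ : {φ : R →+* F // pk (ptOf φ) = (p, 1)}, tF E N φ.1 := by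
    rw [show (((p, 1) : Nat.Primes × ℕ).2 + 1 : ℕ) = 2 from rfl, Nat.cast_ofNat] at h
    rw [← h]
    exact Finset.sum_congr rfl fun φ _ => agE_ptOf (p, 1) hF E N φ.1 φ.2
  have h6 : (2 : ℝ) * ∑ y : {y : Pt R // pk y = (p, 1)}, agE E N y.1 = ∑ᶠ φ : R →+* F, tF E N φ -
      ∑ φ : {φ : R →+* F // ¬ pk (ptOf φ) = (p, 1)}, tF E N φ.1 := by
    rw [h5, finsum_eq_sum_of_fintype, ← hsplit]
    ring
  have h7 : |(2 : ℝ) * ∑ y : {y : Pt R // pk y = (p, 1)}, agE E N y.1| ≤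
      |∑ᶠ φ : R →+* F, tF E N φ| + (Nat.card (R →+* F₀) : ℝ) * (2 * (p : ℕ)) := by
    rw [h6]
    exact (abs_sub _ _).trans (add_le_add le_rfl hcomp)
  rw [abs_mul, abs_two] at h7
  have h8 := abs_nonneg (∑ᶠ φ : R →+* F, tF E N φ)
  linarith

/-- The Euler product of an elliptic curve over a scheme of finite type over the integers, its
continuation and its order of vanishing, from the sums of the traces over finite fields. -/
theorem arith_core (E : WeierstrassCurve R) (N : R) (h2 : (2 : R) ∣ N) (e : ℕ) (he : 1 ≤ e) (r : ℕ)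
    (hb : ∀ (F : Type) [Field F] [Fintype F] (φ : R →+* F), φ N ≠ 0 →
      |(trE (E.map φ) : ℝ)| ≤ 2 * Real.sqrt (Fintype.card F))
    (C : ℝ) (hC0 : 0 ≤ C) (hC : ∀ (F : Type) [Field F] [Fintype F],
      (Nat.card (R →+* F) : ℝ) ≤ C * (Fintype.card F : ℝ) ^ (e : ℝ))
    (M : ℤ) (hM : M ≠ 0) (K : ℝ) (hK : 0 ≤ K)
    (hT : ∀ (F : Type) [Field F] [Fintype F], (M : F) ≠ 0 →
      |∑ᶠ φ : R →+* F, tF E N φ + r * (Fintype.card F : ℝ) ^ (e : ℝ)| ≤
        K * (Fintype.card F : ℝ) ^ ((e : ℝ) - 1 / 2)) :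
    ∃ Φ : ℂ → ℂ,
      (∀ s : ℂ, (e : ℝ) + 3 / 2 < s.re → HasProd (fun y : {y : Pt R // N ∉ y.asIdeal} =>
        (1 - (ay E y.1 : ℂ) * (qy y.1 : ℂ) ^ (-s) + (qy y.1 : ℂ) ^ (1 - 2 * s))⁻¹) (Φ s)) ∧
      MeromorphicOn Φ {s : ℂ | (e : ℝ) + 5 / 6 < s.re} ∧
      meromorphicOrderAt Φ ((e : ℂ) + 1) = ((r : ℤ) : WithTop ℤ) ∧
      (∀ s : ℂ, s.re = (e : ℝ) + 1 → s ≠ (e : ℂ) + 1 → AnalyticAt ℂ Φ s ∧ Φ s ≠ 0) := by
  set D := datE E N h2 e he hb C hC0 hC with hD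
  have he1 : (1 : ℝ) ≤ e := by exact_mod_cast he
  have hM1 : (0 : ℝ) ≤ |(M : ℝ)| := abs_nonneg _
  have hr0 : (0 : ℝ) ≤ r := Nat.cast_nonneg _
  -- the constant
  set K' : ℝ := K + (2 * C + r) * |(M : ℝ)| + r + C with hK'
  have hK'0 : 0 ≤ K' := by positivity
  have b0 : ∀ p : Nat.Primes, |Ac D (p, 0) + r * ((p : ℕ) : ℝ) ^ (e : ℝ)| ≤
      K' * ((p : ℕ) : ℝ) ^ ((e : ℝ) - 1 / 2) := by
    intro p
    have hp0 : (0 : ℝ) < ((p : ℕ) : ℝ) := by exact_mod_cast p.2.pos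
    have hp1 : (1 : ℝ) ≤ ((p : ℕ) : ℝ) := by exact_mod_cast p.2.pos
    obtain ⟨F, _, _, hF⟩ := exists_F (p, 0)
    have hF' : Fintype.card F = (p : ℕ) ^ (0 + 1) := hF
    have hcard : (Fintype.card F : ℝ) = ((p : ℕ) : ℝ) := by
      rw [hF']; push_cast; ring
    have hpe : (0 : ℝ) ≤ ((p : ℕ) : ℝ) ^ ((e : ℝ) - 1 / 2) := by positivity
    by_cases hMF : (M : F) = 0
    · have h6 := le_of_cast_zero p 0 hF' _ hM hMF
      have h7 := Ac_trivial D (p, 0)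
      have hQp : (Qc (p, 0) : ℝ) = ((p : ℕ) : ℝ) := by rw [Qc]; simp
      rw [hQp] at h7
      have h8 : ((p : ℕ) : ℝ) ^ ((e : ℝ) + 1 / 2) =
          ((p : ℕ) : ℝ) * ((p : ℕ) : ℝ) ^ ((e : ℝ) - 1 / 2) := by
        nth_rewrite 2 [← Real.rpow_one ((p : ℕ) : ℝ)]
        rw [← Real.rpow_add hp0]
        congr 1
        ring
      have h9 : ((p : ℕ) : ℝ) ^ (e : ℝ) ≤
          ((p : ℕ) : ℝ) * ((p : ℕ) : ℝ) ^ ((e : ℝ) - 1 / 2) := by
        rw [← h8]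
        exact Real.rpow_le_rpow_of_exponent_le hp1 (by linarith)
      have h10 : D.C = C := rfl
      rw [h10] at h7
      calc |Ac D (p, 0) + r * ((p : ℕ) : ℝ) ^ (e : ℝ)| ≤
          |Ac D (p, 0)| + |(r : ℝ) * ((p : ℕ) : ℝ) ^ (e : ℝ)| := abs_add_le _ _
        _ ≤ 2 * C * (((p : ℕ) : ℝ) * ((p : ℕ) : ℝ) ^ ((e : ℝ) - 1 / 2)) +
            r * (((p : ℕ) : ℝ) * ((p : ℕ) : ℝ) ^ ((e : ℝ) - 1 / 2)) := by
            rw [abs_of_nonneg (show (0 : ℝ) ≤ (r : ℝ) * ((p : ℕ) : ℝ) ^ (e : ℝ) by positivity)]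
            rw [h8] at h7
            exact add_le_add h7 (mul_le_mul_of_nonneg_left h9 hr0)
        _ = ((2 * C + r) * ((p : ℕ) : ℝ)) * ((p : ℕ) : ℝ) ^ ((e : ℝ) - 1 / 2) := by ring
        _ ≤ K' * ((p : ℕ) : ℝ) ^ ((e : ℝ) - 1 / 2) := by
            apply mul_le_mul_of_nonneg_right _ hpe
            have : (2 * C + r) * ((p : ℕ) : ℝ) ≤ (2 * C + r) * |(M : ℝ)| :=
              mul_le_mul_of_nonneg_left h6 (by positivity)
            rw [hK']
            linarith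
    · have h6 := hT F hMF
      rw [hcard] at h6
      have h7 : Ac D (p, 0) = ∑ᶠ φ : R →+* F, tF E N φ := by
        let _ := D.fin (p, 0)
        exact Ac_zero E N p hF'
      rw [h7]
      refine h6.trans (mul_le_mul_of_nonneg_right ?_ hpe)
      rw [hK']
      have : 0 ≤ (2 * C + r) * |(M : ℝ)| := by positivity
      linarith
  have b1 : ∀ p : Nat.Primes, |Ac D (p, 1)| ≤ K' * ((p : ℕ) : ℝ) ^ (2 * (e : ℝ)) := by
    intro p
    have hp0 : (0 : ℝ) < ((p : ℕ) : ℝ) := by exact_mod_cast p.2.pos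
    have hp1 : (1 : ℝ) ≤ ((p : ℕ) : ℝ) := by exact_mod_cast p.2.pos
    obtain ⟨F₀, _, _, hF₀⟩ := exists_F (p, 0)
    have hF₀' : Fintype.card F₀ = (p : ℕ) ^ (0 + 1) := hF₀
    have hcard₀ : (Fintype.card F₀ : ℝ) = ((p : ℕ) : ℝ) := by
      rw [hF₀']; push_cast; ring
    obtain ⟨F, _, _, hF⟩ := exists_F (p, 1)
    have hF' : Fintype.card F = (p : ℕ) ^ (1 + 1) := hF
    have hcard : (Fintype.card F : ℝ) = ((p : ℕ) : ℝ) ^ (2 : ℝ) := by
      rw [hF', Nat.cast_pow, ← Real.rpow_natCast]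
      norm_num
    have hpe : (0 : ℝ) ≤ ((p : ℕ) : ℝ) ^ (2 * (e : ℝ)) := by positivity
    by_cases hMF : (M : F) = 0
    · have h6 := le_of_cast_zero p 1 hF' _ hM hMF
      have h7 := Ac_trivial D (p, 1)
      rw [Qc_rpow] at h7
      have h10 : D.C = C := rfl
      rw [h10] at h7
      have h8 : (((p, 1) : Nat.Primes × ℕ).1 : ℝ) ^ (((((p, 1) : Nat.Primes × ℕ).2 + 1 : ℕ) : ℝ) *
          ((e : ℝ) + 1 / 2)) = ((p : ℕ) : ℝ) * ((p : ℕ) : ℝ) ^ (2 * (e : ℝ)) := by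
        change ((p : ℕ) : ℝ) ^ (((1 + 1 : ℕ) : ℝ) * ((e : ℝ) + 1 / 2)) = _
        nth_rewrite 2 [← Real.rpow_one ((p : ℕ) : ℝ)]
        rw [← Real.rpow_add hp0]
        congr 1
        push_cast
        ring
      rw [h8] at h7
      refine h7.trans ?_
      rw [← mul_assoc]
      apply mul_le_mul_of_nonneg_right _ hpe
      have h11 : 2 * C * ((p : ℕ) : ℝ) ≤ 2 * C * |(M : ℝ)| :=
        mul_le_mul_of_nonneg_left h6 (by positivity)
      have h12 : 0 ≤ (r : ℝ) * |(M : ℝ)| := by positivity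
      rw [hK']
      nlinarith
    · have h6 := hT F hMF
      have h7 : |Ac D (p, 1)| ≤ |∑ᶠ φ : R →+* F, tF E N φ| + (Nat.card (R →+* F₀) : ℝ) * (p : ℕ) := by
        let _ := D.fin (p, 1)
        exact Ac_one E N hb p hF' hF₀'
      have h8 := hC F₀
      rw [hcard₀] at h8
      rw [hcard, ← Real.rpow_mul hp0.le, ← Real.rpow_mul hp0.le] at h6
      have h9 : |∑ᶠ φ : R →+* F, tF E N φ| ≤ (K + r) * ((p : ℕ) : ℝ) ^ (2 * (e : ℝ)) := by
        have h10 : ((p : ℕ) : ℝ) ^ (2 * ((e : ℝ) - 1 / 2)) ≤ ((p : ℕ) : ℝ) ^ (2 * (e : ℝ)) :=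
          Real.rpow_le_rpow_of_exponent_le hp1 (by linarith)
        have h11 := abs_sub (∑ᶠ φ : R →+* F, tF E N φ + r * ((p : ℕ) : ℝ) ^ (2 * (e : ℝ)))
          (r * ((p : ℕ) : ℝ) ^ (2 * (e : ℝ)))
        rw [add_sub_cancel_right, abs_of_nonneg (show
          0 ≤ (r : ℝ) * ((p : ℕ) : ℝ) ^ (2 * (e : ℝ)) by positivity)] at h11
        have h12 := mul_le_mul_of_nonneg_left h10 hK
        linarith
      have h13 : (Nat.card (R →+* F₀) : ℝ) * (p : ℕ) ≤ C * ((p : ℕ) : ℝ) ^ (2 * (e : ℝ)) := by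
        calc (Nat.card (R →+* F₀) : ℝ) * (p : ℕ) ≤ (C * ((p : ℕ) : ℝ) ^ (e : ℝ)) * (p : ℕ) :=
              mul_le_mul_of_nonneg_right h8 hp0.le
          _ = C * ((p : ℕ) : ℝ) ^ ((e : ℝ) + 1) := by
              rw [Real.rpow_add hp0, Real.rpow_one, mul_assoc]
          _ ≤ C * ((p : ℕ) : ℝ) ^ (2 * (e : ℝ)) :=
              mul_le_mul_of_nonneg_left
                (Real.rpow_le_rpow_of_exponent_le hp1 (by linarith)) hC0
      refine h7.trans ((add_le_add h9 h13).trans ?_)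
      rw [← add_mul]
      apply mul_le_mul_of_nonneg_right _ hpe
      have : 0 ≤ (2 * C + r) * |(M : ℝ)| := by positivity
      rw [hK']
      linarith
  obtain ⟨Φ, h1, h3, h4, h5⟩ := core D r K' hK'0 b0 b1
  refine ⟨Φ, ?_, h3, h4, h5⟩
  intro s hs
  have h6 : HasProd (fun y : {y : Pt R // N ∉ y.asIdeal} =>
    (1 - (D.ag y.1 : ℂ) * (qq pk y.1 : ℂ) ^ (-s) + (qq pk y.1 : ℂ) ^ (1 - 2 * s))⁻¹) (Φ s) :=
    h1 s hs
  have h7 : (fun y : {y : Pt R // N ∉ y.asIdeal} =>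
    (1 - (D.ag y.1 : ℂ) * (qq pk y.1 : ℂ) ^ (-s) + (qq pk y.1 : ℂ) ^ (1 - 2 * s))⁻¹) =
    (fun y : {y : Pt R // N ∉ y.asIdeal} =>
      (1 - (ay E y.1 : ℂ) * (qy y.1 : ℂ) ^ (-s) + (qy y.1 : ℂ) ^ (1 - 2 * s))⁻¹) := by
    funext y
    have hag : D.ag y.1 = ((ay E y.1 : ℤ) : ℝ) := by
      change agE E N y.1 = _
      rw [agE, if_pos y.2]
    rw [hag, qq_eq_qy, Complex.ofReal_intCast]
  rw [h7] at h6
  exact h6

end

end Pool.Agent.TH958.An
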