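import Pool.Agent.H126R3.SumQ

/-!
# Euler products of degree two over a family of places: the analytic core
-/

set_option autoImplicit false

namespace Pool.Agent.TH958.An

open Pool.Agent.H126R3 (Qc Qc_pos Qc_rpow summable_Q)

section

variable {Y : Type} (pk : Y → Nat.Primes × ℕ)

/-- the norm of a place -/
def qq (y : Y) : ℕ := Qc (pk y)

lemma qq_pos (y : Y) : 0 < qq pk y := Qc_pos _

lemma qq_eq (c : Nat.Primes × ℕ) (y : {y // pk y = c}) : qq pk y.1 = Qc c := by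
  rw [qq, y.2]

/-- The data of an Euler product of degree two. -/
structure Dat (pk : Y → Nat.Primes × ℕ) (e : ℕ) where
  fin : ∀ c, Fintype {y // pk y = c}
  C : ℝ
  hC : 0 ≤ C
  hcard : ∀ c, (Nat.card {y // pk y = c} : ℝ) ≤ C * (Qc c : ℝ) ^ (e : ℝ)
  G : Y → Prop
  ag : Y → ℝ
  hag : ∀ y, |ag y| ≤ 2 * Real.sqrt (qq pk y)
  h0 : ∀ y, ¬ G y → ag y = 0
  h3 : ∀ y, G y → 3 ≤ qq pk y
  he : 1 ≤ e

variable {pk} {e : ℕ} (D : Dat pk e)

include D in
theorem summable_y (α : ℝ) (hα : (e : ℝ) + 1 < α) :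
    Summable (fun y : Y => (qq pk y : ℝ) ^ (-α)) := by
  letI := D.fin
  rw [← (Equiv.sigmaFiberEquiv pk).summable_iff]
  have h0 : ∀ w : (Σ c, {y : Y // pk y = c}),
      ((fun y : Y => (qq pk y : ℝ) ^ (-α)) ∘ (Equiv.sigmaFiberEquiv pk)) w =
        (Qc w.1 : ℝ) ^ (-α) := by
    intro w
    rcases w with ⟨c, y⟩
    change (qq pk y.1 : ℝ) ^ (-α) = _
    rw [qq_eq]
  rw [summable_congr h0, summable_sigma_of_nonneg (fun _ => by positivity)]
  refine ⟨fun c => (hasSum_fintype _).summable, ?_⟩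
  have he1 : (1 : ℝ) ≤ e := by exact_mod_cast D.he
  have h1 := (summable_Q (α - e) (by linarith) 0 (by push_cast; linarith)).mul_left D.C
  refine Summable.of_nonneg_of_le (fun c => tsum_nonneg fun _ => by positivity) (fun c => ?_) h1
  rw [if_pos (Nat.zero_le _), tsum_fintype]
  change ∑ _b : {y : Y // pk y = c}, (Qc c : ℝ) ^ (-α) ≤ _
  rw [Finset.sum_const, Finset.card_univ, nsmul_eq_mul, ← Nat.card_eq_fintype_card]
  have h2 := D.hcard c
  have hQ : (0 : ℝ) < Qc c := by exact_mod_cast Qc_pos c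
  calc (Nat.card {y : Y // pk y = c} : ℝ) * (Qc c : ℝ) ^ (-α) ≤
      (D.C * (Qc c : ℝ) ^ (e : ℝ)) * (Qc c : ℝ) ^ (-α) :=
        mul_le_mul_of_nonneg_right h2 (by positivity)
    _ = D.C * (Qc c : ℝ) ^ (-(α - e)) := by
        rw [mul_assoc, ← Real.rpow_add hQ]
        congr 2
        ring

/-- `1 - z` is the local factor -/
noncomputable def zz (y : Y) (s : ℂ) : ℂ :=
  (D.ag y : ℂ) * (qq pk y : ℂ) ^ (-s) - (qq pk y : ℂ) ^ (1 - 2 * s)

open Classical in
/-- the logarithm of the local factor without its main term -/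
noncomputable def rho (y : Y) (s : ℂ) : ℂ :=
  if D.G y then -Complex.log (1 - zz D y s) - (D.ag y : ℂ) * (qq pk y : ℂ) ^ (-s) else 0

theorem term_norm (y : Y) (s : ℂ) :
    ‖(D.ag y : ℂ) * (qq pk y : ℂ) ^ (-s)‖ ≤ 2 * (qq pk y : ℝ) ^ (-(s.re - 1 / 2)) := by
  have hq : (0 : ℝ) < qq pk y := by exact_mod_cast qq_pos pk y
  rw [norm_mul, Complex.norm_natCast_cpow_of_pos (qq_pos pk y), Complex.norm_real, Real.norm_eq_abs]
  calc |D.ag y| * (qq pk y : ℝ) ^ (-s).re ≤ (2 * Real.sqrt (qq pk y)) * (qq pk y : ℝ) ^ (-s).re :=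
        mul_le_mul_of_nonneg_right (D.hag y) (by positivity)
    _ = 2 * (qq pk y : ℝ) ^ (-(s.re - 1 / 2)) := by
        rw [Real.sqrt_eq_rpow, mul_assoc, ← Real.rpow_add hq, Complex.neg_re]
        congr 2
        ring

theorem zz_norm (y : Y) (s : ℂ) (hs : 1 / 2 ≤ s.re) :
    ‖zz D y s‖ ≤ 3 * (qq pk y : ℝ) ^ (-(s.re - 1 / 2)) := by
  have hq : (0 : ℝ) < qq pk y := by exact_mod_cast qq_pos pk y
  have hq1 : (1 : ℝ) ≤ qq pk y := by exact_mod_cast qq_pos pk y
  rw [zz]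
  refine (norm_sub_le _ _).trans ?_
  have h1 := term_norm D y s
  have h3 : ‖(qq pk y : ℂ) ^ (1 - 2 * s)‖ ≤ (qq pk y : ℝ) ^ (-(s.re - 1 / 2)) := by
    rw [Complex.norm_natCast_cpow_of_pos (qq_pos pk y)]
    apply Real.rpow_le_rpow_of_exponent_le hq1
    simp
    linarith
  linarith

theorem zz_small (y : Y) (hy : D.G y) (s : ℂ) (hs : 11 / 6 ≤ s.re) :
    ‖zz D y s‖ ≤ 3 / 4 := by
  refine (zz_norm D y s (by linarith)).trans ?_
  have hq3 : (3 : ℝ) ≤ qq pk y := by exact_mod_cast D.h3 y hy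
  have h1 : (qq pk y : ℝ) ^ (-(s.re - 1 / 2)) ≤ (3 : ℝ) ^ (-(4 / 3 : ℝ)) := by
    calc (qq pk y : ℝ) ^ (-(s.re - 1 / 2)) ≤ (qq pk y : ℝ) ^ (-(4 / 3 : ℝ)) := by
          apply Real.rpow_le_rpow_of_exponent_le (by linarith)
          linarith
      _ ≤ (3 : ℝ) ^ (-(4 / 3 : ℝ)) :=
          Real.rpow_le_rpow_of_nonpos (by norm_num) hq3 (by norm_num)
  have h3 : (3 : ℝ) ^ (-(4 / 3 : ℝ)) ≤ 1 / 4 := by
    rw [show (-(4 / 3 : ℝ)) = (-4 : ℝ) * (1 / 3 : ℝ) by norm_num, Real.rpow_mul (by norm_num)]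
    have : (3 : ℝ) ^ (-4 : ℝ) = 1 / 81 := by
      rw [Real.rpow_neg (by norm_num)]
      norm_num
    rw [this]
    have h4 : ((1 / 81 : ℝ) ^ (1 / 3 : ℝ)) ≤ ((1 / 4 : ℝ) ^ (3 : ℝ)) ^ (1 / 3 : ℝ) := by
      apply Real.rpow_le_rpow (by norm_num) _ (by norm_num)
      norm_num
    rw [← Real.rpow_mul (by norm_num)] at h4
    norm_num at h4 ⊢
    exact h4
  linarith

theorem rho_norm (y : Y) (s : ℂ) (hs : 11 / 6 ≤ s.re) :
    ‖rho D y s‖ ≤ 19 * (qq pk y : ℝ) ^ (-(2 * s.re - 1)) := by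
  classical
  have hq : (0 : ℝ) < qq pk y := by exact_mod_cast qq_pos pk y
  rw [rho]
  split_ifs with h
  · have hz := zz_small D y h s hs
    have hz' := zz_norm D y s (by linarith)
    set z := zz D y s with hzdef
    have h1 : ‖-z‖ < 1 := by rw [norm_neg]; linarith
    have h3 := Complex.norm_log_one_add_sub_self_le h1
    rw [norm_neg] at h3
    have h4 : -Complex.log (1 - z) - (D.ag y : ℂ) * (qq pk y : ℂ) ^ (-s) =
        -(Complex.log (1 + -z) - -z) - (qq pk y : ℂ) ^ (1 - 2 * s) := by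
      have h5 : (D.ag y : ℂ) * (qq pk y : ℂ) ^ (-s) = z + (qq pk y : ℂ) ^ (1 - 2 * s) := by
        rw [hzdef, zz]; ring
      rw [h5, ← sub_eq_add_neg 1 z]
      ring
    rw [h4]
    refine (norm_sub_le _ _).trans ?_
    rw [norm_neg]
    have h6 : ‖(qq pk y : ℂ) ^ (1 - 2 * s)‖ = (qq pk y : ℝ) ^ (-(2 * s.re - 1)) := by
      rw [Complex.norm_natCast_cpow_of_pos (qq_pos pk y)]
      congr 1
      simp
    have h7 : ‖z‖ ^ 2 ≤ 9 * (qq pk y : ℝ) ^ (-(2 * s.re - 1)) := by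
      calc ‖z‖ ^ 2 ≤ (3 * (qq pk y : ℝ) ^ (-(s.re - 1 / 2))) ^ 2 :=
            pow_le_pow_left₀ (norm_nonneg _) hz' 2
        _ = 9 * (qq pk y : ℝ) ^ (-(2 * s.re - 1)) := by
            rw [mul_pow, ← Real.rpow_natCast ((qq pk y : ℝ) ^ (-(s.re - 1 / 2))) 2,
              ← Real.rpow_mul hq.le]
            congr 1
            · norm_num
            · congr 1; push_cast; ring
    have h8 : (1 - ‖z‖)⁻¹ ≤ 4 := by
      rw [inv_le_comm₀ (by linarith) (by norm_num)]
      linarith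
    have h9 : ‖z‖ ^ 2 * (1 - ‖z‖)⁻¹ / 2 ≤ 18 * (qq pk y : ℝ) ^ (-(2 * s.re - 1)) := by
      have : ‖z‖ ^ 2 * (1 - ‖z‖)⁻¹ ≤ (9 * (qq pk y : ℝ) ^ (-(2 * s.re - 1))) * 4 := by
        apply mul_le_mul h7 h8
        · rw [inv_nonneg]; linarith
        · positivity
      linarith
    linarith
  · rw [norm_zero]; positivity

theorem rho_diff (y : Y) (s : ℂ) (hs : 11 / 6 ≤ s.re) :
    DifferentiableAt ℂ (rho D y) s := by
  classical
  have hq : (qq pk y : ℂ) ≠ 0 := by exact_mod_cast (qq_pos pk y).ne'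
  by_cases h : D.G y
  · have h1 : rho D y = fun s => -Complex.log (1 - zz D y s) -
        (D.ag y : ℂ) * (qq pk y : ℂ) ^ (-s) := by
      funext s; rw [rho, if_pos h]
    rw [h1]
    have hz := zz_small D y h s hs
    have d1 : DifferentiableAt ℂ (fun s : ℂ => (qq pk y : ℂ) ^ (-s)) s :=
      (differentiableAt_id.neg).const_cpow (Or.inl hq)
    have d2 : DifferentiableAt ℂ (fun s : ℂ => (qq pk y : ℂ) ^ (1 - 2 * s)) s :=
      ((differentiableAt_const _).sub ((differentiableAt_const _).mul differentiableAt_id)).const_cpow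
        (Or.inl hq)
    have d3 : DifferentiableAt ℂ (zz D y) s := ((differentiableAt_const _).mul d1).sub d2
    have hsl : 1 - zz D y s ∈ Complex.slitPlane := by
      rw [sub_eq_add_neg]
      apply Complex.mem_slitPlane_of_norm_lt_one
      rw [norm_neg]; linarith
    exact ((((differentiableAt_const _).sub d3).clog hsl).neg).sub ((differentiableAt_const _).mul d1)
  · have h1 : rho D y = fun _ => 0 := by
      funext s; rw [rho, if_neg h]
    rw [h1]
    exact differentiableAt_const _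

theorem rho_summable (s : ℂ) (hs : (e : ℝ) + 5 / 6 ≤ s.re) :
    Summable (fun y => rho D y s) := by
  have hn' : (1 : ℝ) ≤ e := by exact_mod_cast D.he
  refine Summable.of_norm_bounded
    ((summable_y D (2 * s.re - 1) (by linarith)).mul_left 19) (fun y => ?_)
  exact rho_norm D y s (by linarith)

theorem rho_tsum_diff : DifferentiableOn ℂ (fun s => ∑' y : Y, rho D y s)
    {s : ℂ | (e : ℝ) + 5 / 6 < s.re} := by
  have hn' : (1 : ℝ) ≤ e := by exact_mod_cast D.he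
  refine Complex.differentiableOn_tsum_of_summable_norm
    (u := fun y => 19 * (qq pk y : ℝ) ^ (-(2 * ((e : ℝ) + 5 / 6) - 1)))
    ((summable_y D (2 * ((e : ℝ) + 5 / 6) - 1) (by linarith)).mul_left 19) ?_
    (isOpen_lt continuous_const Complex.continuous_re) ?_
  · intro y s hs
    simp only [Set.mem_ofPred_eq] at hs
    exact (rho_diff D y s (by linarith)).differentiableWithinAt
  · intro y s hs
    simp only [Set.mem_ofPred_eq] at hs
    refine (rho_norm D y s (by linarith)).trans ?_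
    apply mul_le_mul_of_nonneg_left _ (by norm_num)
    apply Real.rpow_le_rpow_of_exponent_le (by exact_mod_cast qq_pos pk y)
    linarith

/-- the sum of the traces over the places of type `c` -/
noncomputable def Ac (c : Nat.Primes × ℕ) : ℝ :=
  letI := D.fin c
  ∑ y : {y // pk y = c}, D.ag y.1

/-- the trivial bound -/
theorem Ac_trivial (c : Nat.Primes × ℕ) : |Ac D c| ≤
    2 * D.C * (Qc c : ℝ) ^ ((e : ℝ) + 1 / 2) := by
  letI := D.fin c
  have hQ : (0 : ℝ) < Qc c := by exact_mod_cast Qc_pos c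
  rw [Ac]
  refine (Finset.abs_sum_le_sum_abs _ _).trans ?_
  have h : ∀ y ∈ (Finset.univ : Finset {y // pk y = c}),
      |D.ag y.1| ≤ 2 * (Qc c : ℝ) ^ (1 / 2 : ℝ) := by
    intro y _
    have := D.hag y.1
    rwa [qq_eq, Real.sqrt_eq_rpow] at this
  refine (Finset.sum_le_sum h).trans ?_
  rw [Finset.sum_const, Finset.card_univ, nsmul_eq_mul, ← Nat.card_eq_fintype_card]
  calc (Nat.card {y // pk y = c} : ℝ) * (2 * (Qc c : ℝ) ^ (1 / 2 : ℝ)) ≤
      (D.C * (Qc c : ℝ) ^ (e : ℝ)) * (2 * (Qc c : ℝ) ^ (1 / 2 : ℝ)) :=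
        mul_le_mul_of_nonneg_right (D.hcard c) (by positivity)
    _ = 2 * D.C * (Qc c : ℝ) ^ ((e : ℝ) + 1 / 2) := by
        rw [Real.rpow_add hQ]
        ring

theorem hasSum_ay (s : ℂ) (hs : (e : ℝ) + 3 / 2 < s.re) :
    HasSum (fun y : Y => (D.ag y : ℂ) * (qq pk y : ℂ) ^ (-s))
      (∑' c : Nat.Primes × ℕ, (Ac D c : ℂ) * (Qc c : ℂ) ^ (-s)) := by
  classical
  letI := D.fin
  have hsm : Summable (fun y : Y => (D.ag y : ℂ) * (qq pk y : ℂ) ^ (-s)) := by
    refine Summable.of_norm_bounded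
      ((summable_y D (s.re - 1 / 2) (by linarith)).mul_left 2) (fun y => ?_)
    exact term_norm D y s
  have h3 : ∑' y : Y, (D.ag y : ℂ) * (qq pk y : ℂ) ^ (-s) =
      ∑' c : Nat.Primes × ℕ, (Ac D c : ℂ) * (Qc c : ℂ) ^ (-s) := by
    rw [← (Equiv.sigmaFiberEquiv pk).tsum_eq, Summable.tsum_sigma]
    · apply tsum_congr
      intro c
      have h4 : ∀ y : {y // pk y = c}, ((D.ag
          ((Equiv.sigmaFiberEquiv pk) ⟨c, y⟩) : ℝ) : ℂ) *
          (qq pk ((Equiv.sigmaFiberEquiv pk) ⟨c, y⟩) : ℂ) ^ (-s) =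
          ((D.ag y.1 : ℝ) : ℂ) * (Qc c : ℂ) ^ (-s) := by
        intro y
        change ((D.ag y.1 : ℝ) : ℂ) * (qq pk y.1 : ℂ) ^ (-s) = _
        rw [qq_eq]
      rw [tsum_congr h4, tsum_fintype, ← Finset.sum_mul]
      congr 1
      rw [Ac]
      push_cast
      rfl
    · exact (Equiv.sigmaFiberEquiv pk).summable_iff.2 hsm
  rw [← h3]
  exact hsm.hasSum

open Classical in
/-- the Euler product -/
theorem hasProd_all (s : ℂ) (hs : (e : ℝ) + 3 / 2 < s.re) :
    HasProd (fun y : Y => if D.G y then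
      (1 - (D.ag y : ℂ) * (qq pk y : ℂ) ^ (-s) + (qq pk y : ℂ) ^ (1 - 2 * s))⁻¹ else 1)
      (Complex.exp (∑' y : Y, rho D y s +
        ∑' c : Nat.Primes × ℕ, (Ac D c : ℂ) * (Qc c : ℂ) ^ (-s))) := by
  have hn' : (1 : ℝ) ≤ e := by exact_mod_cast D.he
  have h3 := ((rho_summable D s (by linarith)).hasSum.add (hasSum_ay D s hs)).cexp
  have h4 : (Complex.exp ∘ fun y : Y => rho D y s +
      (D.ag y : ℂ) * (qq pk y : ℂ) ^ (-s)) =
      fun y : Y => if D.G y then
      (1 - (D.ag y : ℂ) * (qq pk y : ℂ) ^ (-s) + (qq pk y : ℂ) ^ (1 - 2 * s))⁻¹ else 1 := by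
    funext y
    simp only [Function.comp]
    by_cases h : D.G y
    · rw [if_pos h, rho, if_pos h, sub_add_cancel, Complex.exp_neg, Complex.exp_log]
      · rw [zz]
        congr 1
        ring
      · intro h0
        have hz := zz_small D y h s (by linarith)
        have : zz D y s = 1 := by
          rw [sub_eq_zero] at h0
          exact h0.symm
        rw [this, norm_one] at hz
        norm_num at hz
    · rw [if_neg h, rho, if_neg h, D.h0 y h]
      simp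
  rw [h4] at h3
  exact h3

/-- the Euler product over the good places -/
theorem hasProd_good (s : ℂ) (hs : (e : ℝ) + 3 / 2 < s.re) :
    HasProd (fun y : {y : Y // D.G y} =>
      (1 - (D.ag y.1 : ℂ) * (qq pk y.1 : ℂ) ^ (-s) + (qq pk y.1 : ℂ) ^ (1 - 2 * s))⁻¹)
      (Complex.exp (∑' y : Y, rho D y s +
        ∑' c : Nat.Primes × ℕ, (Ac D c : ℂ) * (Qc c : ℂ) ^ (-s))) := by
  classical
  have h3 := hasProd_all D s hs
  have h5 : (Set.mulIndicator {y : Y | D.G y} fun y : Y =>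
      (1 - (D.ag y : ℂ) * (qq pk y : ℂ) ^ (-s) + (qq pk y : ℂ) ^ (1 - 2 * s))⁻¹) =
      fun y : Y => if D.G y then
      (1 - (D.ag y : ℂ) * (qq pk y : ℂ) ^ (-s) + (qq pk y : ℂ) ^ (1 - 2 * s))⁻¹ else 1 := by
    funext y
    by_cases h : D.G y
    · rw [Set.mulIndicator_of_mem (show y ∈ {y : Y | D.G y} from h), if_pos h]
    · rw [Set.mulIndicator_of_notMem (show y ∉ {y : Y | D.G y} from h), if_neg h]
  rw [← h5] at h3
  exact hasProd_subtype_iff_mulIndicator.2 h3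

end

end Pool.Agent.TH958.An
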