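import Pool.Agent.TH958.An.Second

/-!
# The weighted sum of traces over the fibre power
-/

set_option autoImplicit false

namespace Pool.Agent.TH958.An

open Finset MvPolynomial
open Pool.Agent.H126G (fs fs_bound)
open Pool.Agent.H126R3 (sz)

/-- the binomial expansion up to second order -/
theorem binom (q s : ℝ) (hq : 0 ≤ q) (hs : |s| ≤ 2 * q) (r : ℕ) :
    q ^ 2 * |(q + s) ^ r - q ^ r - r * s * q ^ (r - 1)| ≤ 4 ^ r * s ^ 2 * q ^ r := by
  induction r with
  | zero => simp; positivity
  | succ r ih =>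
    set E := (q + s) ^ r - q ^ r - r * s * q ^ (r - 1) with hE
    have h1 : (q + s) ^ (r + 1) - q ^ (r + 1) - (r + 1 : ℕ) * s * q ^ (r + 1 - 1) =
        (q + s) * E + r * s ^ 2 * q ^ (r - 1) := by
      rw [hE]
      rcases r with _ | k
      · simp
      · simp only [Nat.add_sub_cancel]
        push_cast
        ring
    have h2 : q ^ 2 * (r * s ^ 2 * q ^ (r - 1)) = r * s ^ 2 * q ^ (r + 1) := by
      rcases r with _ | k
      · simp
      · simp only [Nat.add_sub_cancel]
        ring
    have h3 : |q + s| ≤ 3 * q := by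
      refine (abs_add_le _ _).trans ?_
      rw [abs_of_nonneg hq]
      linarith
    have h4 : (0 : ℝ) ≤ r * s ^ 2 * q ^ (r - 1) := by positivity
    have hr : (r : ℝ) ≤ 4 ^ r := by
      have : r ≤ 4 ^ r := (Nat.lt_pow_self (by norm_num : 1 < 4)).le
      exact_mod_cast this
    rw [h1]
    calc q ^ 2 * |(q + s) * E + r * s ^ 2 * q ^ (r - 1)| ≤
        q ^ 2 * (|q + s| * |E| + r * s ^ 2 * q ^ (r - 1)) := by
          apply mul_le_mul_of_nonneg_left _ (by positivity)
          refine (abs_add_le _ _).trans ?_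
          rw [abs_mul, abs_of_nonneg h4]
      _ = |q + s| * (q ^ 2 * |E|) + q ^ 2 * (r * s ^ 2 * q ^ (r - 1)) := by ring
      _ ≤ (3 * q) * (4 ^ r * s ^ 2 * q ^ r) + r * s ^ 2 * q ^ (r + 1) := by
          rw [h2]
          exact add_le_add (mul_le_mul h3 ih (by positivity) (by positivity)) le_rfl
      _ = (3 * 4 ^ r + r) * (s ^ 2 * q ^ (r + 1)) := by ring
      _ ≤ 4 ^ (r + 1) * (s ^ 2 * q ^ (r + 1)) := by
          apply mul_le_mul_of_nonneg_right _ (by positivity)
          rw [pow_succ]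
          linarith
      _ = 4 ^ (r + 1) * s ^ 2 * q ^ (r + 1) := by ring

/-- the main term of the summand -/
theorem term_expand (q s : ℝ) (hq : 1 ≤ q) (hs : |s| ≤ 2 * Real.sqrt q) (r : ℕ) (hr : 1 ≤ r) :
    |-s * (q + s) ^ r + s * q ^ r + r * s ^ 2 * q ^ (r - 1)| ≤
      8 * 4 ^ r * (Real.sqrt q * q ^ (r - 1)) := by
  have hq0 : 0 < q := by linarith
  have hsq : Real.sqrt q ≤ q := by
    rw [Real.sqrt_le_left (by linarith)]
    nlinarith
  have hss : Real.sqrt q ^ 2 = q := Real.sq_sqrt hq0.le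
  have hs2 : |s| ≤ 2 * q := by linarith
  have h1 := binom q s hq0.le hs2 r
  set E := (q + s) ^ r - q ^ r - r * s * q ^ (r - 1) with hE
  have h2 : -s * (q + s) ^ r + s * q ^ r + r * s ^ 2 * q ^ (r - 1) = -(s * E) := by
    rw [hE]; ring
  rw [h2, abs_neg, abs_mul]
  have h3 : s ^ 2 ≤ 4 * q := by
    rw [← sq_abs]
    calc |s| ^ 2 ≤ (2 * Real.sqrt q) ^ 2 := pow_le_pow_left₀ (abs_nonneg _) hs 2
      _ = 4 * q := by rw [mul_pow, hss]; norm_num
  have h4 : q ^ 2 * (|s| * |E|) ≤ q ^ 2 * (8 * 4 ^ r * (Real.sqrt q * q ^ (r - 1))) := by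
    have hqr : q ^ r = q * q ^ (r - 1) := by
      rw [← pow_succ']
      congr 1
      omega
    calc q ^ 2 * (|s| * |E|) = |s| * (q ^ 2 * |E|) := by ring
      _ ≤ (2 * Real.sqrt q) * (4 ^ r * s ^ 2 * q ^ r) :=
          mul_le_mul hs h1 (by positivity) (by positivity)
      _ ≤ (2 * Real.sqrt q) * (4 ^ r * (4 * q) * q ^ r) := by
          apply mul_le_mul_of_nonneg_left _ (by positivity)
          apply mul_le_mul_of_nonneg_right _ (by positivity)
          exact mul_le_mul_of_nonneg_left h3 (by positivity)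
      _ = q ^ 2 * (8 * 4 ^ r * (Real.sqrt q * q ^ (r - 1))) := by
          rw [hqr]; ring
  exact le_of_mul_le_mul_left h4 (by positivity)

/-- the trivial bound for the summand -/
theorem term_triv (q s : ℝ) (hq : 1 ≤ q) (hs : |s| ≤ 2 * Real.sqrt q) (r : ℕ) :
    |-s * (q + s) ^ r| ≤ 2 * 3 ^ r * (Real.sqrt q * q ^ r) := by
  have hq0 : 0 < q := by linarith
  have hsq : Real.sqrt q ≤ q := by
    rw [Real.sqrt_le_left (by linarith)]
    nlinarith
  have h3 : |q + s| ≤ 3 * q := by
    refine (abs_add_le _ _).trans ?_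
    rw [abs_of_nonneg hq0.le]
    linarith
  rw [abs_mul, abs_neg, abs_pow]
  calc |s| * |q + s| ^ r ≤ (2 * Real.sqrt q) * (3 * q) ^ r :=
        mul_le_mul hs (pow_le_pow_left₀ (abs_nonneg _) h3 r) (by positivity) (by positivity)
    _ = 2 * 3 ^ r * (Real.sqrt q * q ^ r) := by rw [mul_pow]; ring

section
variable {τ : Type} [Fintype τ] [DecidableEq τ] (a : MvPolynomial τ ℤ) {F : Type} [Field F]
  [Fintype F] [DecidableEq F]

theorem SS_bound (hF : ringChar F ≠ 2) (A b : F) :
    |(SS A b : ℝ)| ≤ 2 * Real.sqrt (Fintype.card F) := by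
  rw [← fs_eq]
  exact fs_bound hF 0 A b

/-- the summand -/
noncomputable def tt (a : MvPolynomial τ ℤ) (r : ℕ) (u : τ → F) (b : F) : ℝ :=
  -(SS (aeval (R := ℤ) u a) b : ℝ) * ((Fintype.card F : ℝ) + SS (aeval (R := ℤ) u a) b) ^ r

/-- the number of `u` where `a` vanishes -/
theorem zeros_bound (μ : τ →₀ ℕ) (hμ : ((coeff μ a : ℤ) : F) ≠ 0) :
    ((univ.filter fun u : τ → F => aeval (R := ℤ) u a = 0).card : ℝ) * Fintype.card F ≤
      a.totalDegree * (Fintype.card F : ℝ) ^ Fintype.card τ := by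
  have hw : MvPolynomial.map (Int.castRingHom F) a ≠ 0 := by
    intro h
    apply hμ
    have := congrArg (coeff μ) h
    rw [coeff_map, coeff_zero] at this
    exact this
  have hbad := sz (MvPolynomial.map (Int.castRingHom F) a) hw
  have hev : ∀ t : τ → F, eval t (MvPolynomial.map (Int.castRingHom F) a) = aeval (R := ℤ) t a := by
    intro t
    rw [eval_map]
    rfl
  simp only [hev] at hbad
  rw [Nat.card_eq_fintype_card, Fintype.card_subtype] at hbad
  have hdeg : ((MvPolynomial.map (Int.castRingHom F) a).totalDegree : ℝ) ≤ a.totalDegree := by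
    exact_mod_cast Finset.sup_mono (support_map_subset _ _)
  exact hbad.trans (mul_le_mul_of_nonneg_right hdeg (by positivity))

/-- the sum over all parameters -/
theorem sum_all (hF : ringChar F ≠ 2) (h3 : (3 : F) ≠ 0) (μ : τ →₀ ℕ)
    (hμ : ((coeff μ a : ℤ) : F) ≠ 0) (r : ℕ) (hr : 1 ≤ r) :
    |∑ u : τ → F, ∑ b : F, tt a r u b + r * (Fintype.card F : ℝ) ^ (Fintype.card τ + r + 1)| ≤
      (8 * 4 ^ r + r * (3 + 2 * a.totalDegree)) *
        (Real.sqrt (Fintype.card F) * (Fintype.card F : ℝ) ^ (Fintype.card τ + r)) := by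
  set q : ℝ := (Fintype.card F : ℝ) with hq
  have hq1 : 1 ≤ q := by rw [hq]; exact_mod_cast Fintype.card_pos
  have hq0 : 0 < q := by linarith
  set m := Fintype.card τ with hm
  set s : (τ → F) → F → ℝ := fun u b => (SS (aeval (R := ℤ) u a) b : ℝ) with hs
  have hsb : ∀ u b, |s u b| ≤ 2 * Real.sqrt q := fun u b => SS_bound hF _ _
  have hsum1 : ∀ u : τ → F, ∑ b : F, s u b = 0 := by
    intro u
    have := sum_SS hF (aeval (R := ℤ) u a)
    have h := congrArg (fun z : ℤ => (z : ℝ)) this
    push_cast at h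
    exact h
  have hcardF : (univ : Finset F).card = Fintype.card F := card_univ
  have hcardU : ((univ : Finset (τ → F)).card : ℝ) = q ^ m := by
    rw [card_univ, Fintype.card_fun, hq, hm]; push_cast; rfl
  -- the error term of order three
  have hE : |∑ u : τ → F, ∑ b : F, (tt a r u b + s u b * q ^ r + r * s u b ^ 2 * q ^ (r - 1))| ≤
      8 * 4 ^ r * (Real.sqrt q * q ^ (m + r)) := by
    calc _ ≤ ∑ u : τ → F, ∑ b : F, 8 * 4 ^ r * (Real.sqrt q * q ^ (r - 1)) := by
          refine (abs_sum_le_sum_abs _ _).trans (sum_le_sum fun u _ => ?_)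
          refine (abs_sum_le_sum_abs _ _).trans (sum_le_sum fun b _ => ?_)
          exact term_expand q (s u b) hq1 (hsb u b) r hr
      _ = 8 * 4 ^ r * (Real.sqrt q * q ^ (m + r)) := by
          rw [sum_const, sum_const, nsmul_eq_mul, nsmul_eq_mul, hcardU, card_univ, ← hq]
          have : q ^ (m + r) = q ^ m * (q * q ^ (r - 1)) := by
            rw [pow_add, ← pow_succ']
            congr 2
            omega
          rw [this]
          ring
  -- the second moment
  set Z := univ.filter fun u : τ → F => aeval (R := ℤ) u a = 0 with hZ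
  have hZc := zeros_bound a (F := F) μ hμ
  rw [← hZ, ← hq, ← hm] at hZc
  have hM : |∑ u : τ → F, (∑ b : F, s u b ^ 2 - q ^ 2)| ≤ (3 + 2 * a.totalDegree) * q ^ (m + 1) := by
    calc _ ≤ ∑ u : τ → F, (3 * q + if aeval (R := ℤ) u a = 0 then 2 * q ^ 2 else 0) := by
          refine (abs_sum_le_sum_abs _ _).trans (sum_le_sum fun u _ => ?_)
          by_cases h0 : aeval (R := ℤ) u a = 0
          · rw [if_pos h0]
            have := second_all hF (aeval (R := ℤ) u a)
            rw [← hq] at this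
            have h5 : (0 : ℝ) ≤ 3 * q := by positivity
            exact this.trans (by linarith)
          · rw [if_neg h0, add_zero]
            exact second_ne hF h3 _ h0
      _ = 3 * q * q ^ m + (Z.card : ℝ) * (2 * q ^ 2) := by
          rw [sum_add_distrib, sum_const, nsmul_eq_mul, hcardU, ← sum_filter, sum_const,
            nsmul_eq_mul]
          ring
      _ ≤ 3 * q * q ^ m + (a.totalDegree * q ^ m) * (2 * q) := by
          have : (Z.card : ℝ) * (2 * q ^ 2) = ((Z.card : ℝ) * q) * (2 * q) := by ring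
          rw [this]
          have h5 := mul_le_mul_of_nonneg_right hZc (show (0 : ℝ) ≤ 2 * q by positivity)
          linarith
      _ = (3 + 2 * a.totalDegree) * q ^ (m + 1) := by ring
  -- combine
  have hid : ∑ u : τ → F, ∑ b : F, tt a r u b + r * q ^ (m + r + 1) =
      ∑ u : τ → F, ∑ b : F, (tt a r u b + s u b * q ^ r + r * s u b ^ 2 * q ^ (r - 1)) -
        r * q ^ (r - 1) * ∑ u : τ → F, (∑ b : F, s u b ^ 2 - q ^ 2) := by
    have e1 : ∑ u : τ → F, ∑ b : F, (tt a r u b + s u b * q ^ r + r * s u b ^ 2 * q ^ (r - 1)) =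
        ∑ u : τ → F, ∑ b : F, tt a r u b +
          r * q ^ (r - 1) * ∑ u : τ → F, ∑ b : F, s u b ^ 2 := by
      rw [mul_sum, ← sum_add_distrib]
      refine sum_congr rfl fun u _ => ?_
      rw [sum_add_distrib, sum_add_distrib, ← sum_mul, hsum1, zero_mul, add_zero, mul_sum]
      congr 1
      refine sum_congr rfl fun b _ => ?_
      ring
    have e2 : ∑ u : τ → F, (∑ b : F, s u b ^ 2 - q ^ 2) =
        ∑ u : τ → F, ∑ b : F, s u b ^ 2 - q ^ m * q ^ 2 := by
      rw [sum_sub_distrib, sum_const, nsmul_eq_mul, hcardU]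
    have e3 : q ^ (m + r + 1) = q ^ (r - 1) * (q ^ m * q ^ 2) := by
      rw [← pow_add, ← pow_add]
      congr 1
      omega
    rw [e1, e2, e3]
    ring
  have hsq1 : 1 ≤ Real.sqrt q := by
    rw [Real.one_le_sqrt]; exact hq1
  rw [hid]
  refine (abs_sub _ _).trans ?_
  have h6 : |(r : ℝ) * q ^ (r - 1) * ∑ u : τ → F, (∑ b : F, s u b ^ 2 - q ^ 2)| ≤
      (r * (3 + 2 * a.totalDegree)) * (Real.sqrt q * q ^ (m + r)) := by
    rw [abs_mul, abs_of_nonneg (show (0 : ℝ) ≤ (r : ℝ) * q ^ (r - 1) by positivity)]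
    calc (r : ℝ) * q ^ (r - 1) * |∑ u : τ → F, (∑ b : F, s u b ^ 2 - q ^ 2)| ≤
        (r : ℝ) * q ^ (r - 1) * ((3 + 2 * a.totalDegree) * q ^ (m + 1)) :=
          mul_le_mul_of_nonneg_left hM (by positivity)
      _ = (r * (3 + 2 * a.totalDegree)) * (1 * q ^ (m + r)) := by
          have : q ^ (m + r) = q ^ (r - 1) * q ^ (m + 1) := by
            rw [← pow_add]
            congr 1
            omega
          rw [this]
          ring
      _ ≤ _ := by
          apply mul_le_mul_of_nonneg_left _ (by positivity)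
          exact mul_le_mul_of_nonneg_right hsq1 (by positivity)
  calc _ ≤ 8 * 4 ^ r * (Real.sqrt q * q ^ (m + r)) +
        (r * (3 + 2 * a.totalDegree)) * (Real.sqrt q * q ^ (m + r)) := add_le_add hE h6
    _ = _ := by ring

/-- the sum over the good parameters -/
theorem sum_good (hF : ringChar F ≠ 2) (h3 : (3 : F) ≠ 0) (μ : τ →₀ ℕ)
    (hμ : ((coeff μ a : ℤ) : F) ≠ 0) (r : ℕ) (hr : 1 ≤ r) :
    |∑ u : τ → F, ∑ b : F, (if 4 * aeval (R := ℤ) u a ^ 3 + 27 * b ^ 2 = 0 then 0 else tt a r u b) +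
        r * (Fintype.card F : ℝ) ^ (Fintype.card τ + r + 1)| ≤
      (8 * 4 ^ r + r * (3 + 2 * a.totalDegree) + 4 * 3 ^ r) *
        (Real.sqrt (Fintype.card F) * (Fintype.card F : ℝ) ^ (Fintype.card τ + r)) := by
  set q : ℝ := (Fintype.card F : ℝ) with hq
  have hq1 : 1 ≤ q := by rw [hq]; exact_mod_cast Fintype.card_pos
  have hq0 : 0 < q := by linarith
  set m := Fintype.card τ with hm
  have h1 := sum_all a hF h3 μ hμ r hr
  rw [← hq, ← hm] at h1
  have h27 : (27 : F) ≠ 0 := by
    have : (27 : F) = 3 ^ 3 := by norm_num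
    rw [this]
    exact pow_ne_zero 3 h3
  have hbad : ∀ u : τ → F,
      ((univ.filter fun b : F => 4 * aeval (R := ℤ) u a ^ 3 + 27 * b ^ 2 = 0).card : ℝ) ≤ 2 := by
    intro u
    have h4 : (univ.filter fun b : F => 4 * aeval (R := ℤ) u a ^ 3 + 27 * b ^ 2 = 0).card ≤ 2 := by
      generalize 4 * aeval (R := ℤ) u a ^ 3 = c
      set P : Polynomial F := Polynomial.C 27 * Polynomial.X ^ 2 + Polynomial.C c with hP
      have h5 : (univ.filter fun b : F => c + 27 * b ^ 2 = 0) ⊆
          P.roots.toFinset := by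
        intro x hx
        rw [mem_filter] at hx
        rw [Multiset.mem_toFinset, Polynomial.mem_roots']
        refine ⟨?_, ?_⟩
        · intro h0
          have := congrArg (fun p => Polynomial.coeff p 2) h0
          simp [hP, Polynomial.coeff_C] at this
          exact h27 this
        · rw [Polynomial.IsRoot]
          simp only [hP, Polynomial.eval_add, Polynomial.eval_mul, Polynomial.eval_pow,
            Polynomial.eval_C, Polynomial.eval_X]
          linear_combination hx.2
      refine (card_le_card h5).trans ((Multiset.toFinset_card_le _).trans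
        ((Polynomial.card_roots' _).trans ?_))
      rw [hP]
      compute_degree
    exact_mod_cast h4
  have h5 : |∑ u : τ → F, ∑ b : F, (if 4 * aeval (R := ℤ) u a ^ 3 + 27 * b ^ 2 = 0 then tt a r u b
      else 0)| ≤ 4 * 3 ^ r * (Real.sqrt q * q ^ (m + r)) := by
    calc _ ≤ ∑ u : τ → F, ∑ b : F, (if 4 * aeval (R := ℤ) u a ^ 3 + 27 * b ^ 2 = 0 then
          2 * 3 ^ r * (Real.sqrt q * q ^ r) else 0) := by
          refine (abs_sum_le_sum_abs _ _).trans (sum_le_sum fun u _ => ?_)
          refine (abs_sum_le_sum_abs _ _).trans (sum_le_sum fun b _ => ?_)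
          split_ifs
          · exact term_triv q _ hq1 (SS_bound hF _ _) r
          · rw [abs_zero]
      _ ≤ ∑ u : τ → F, 2 * (2 * 3 ^ r * (Real.sqrt q * q ^ r)) := by
          refine sum_le_sum fun u _ => ?_
          rw [← sum_filter, sum_const, nsmul_eq_mul]
          exact mul_le_mul_of_nonneg_right (hbad u) (by positivity)
      _ = 4 * 3 ^ r * (Real.sqrt q * q ^ (m + r)) := by
          rw [sum_const, nsmul_eq_mul, card_univ, Fintype.card_fun]
          push_cast
          rw [← hq, ← hm, pow_add]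
          ring
  have h6 : ∑ u : τ → F, ∑ b : F, (if 4 * aeval (R := ℤ) u a ^ 3 + 27 * b ^ 2 = 0 then 0
        else tt a r u b) + r * q ^ (m + r + 1) =
      (∑ u : τ → F, ∑ b : F, tt a r u b + r * q ^ (m + r + 1)) -
      ∑ u : τ → F, ∑ b : F, (if 4 * aeval (R := ℤ) u a ^ 3 + 27 * b ^ 2 = 0 then tt a r u b
        else 0) := by
    have e1 : ∑ u : τ → F, ∑ b : F, (if 4 * aeval (R := ℤ) u a ^ 3 + 27 * b ^ 2 = 0 then 0
        else tt a r u b) = ∑ u : τ → F, ∑ b : F, tt a r u b -
      ∑ u : τ → F, ∑ b : F, (if 4 * aeval (R := ℤ) u a ^ 3 + 27 * b ^ 2 = 0 then tt a r u b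
        else 0) := by
      rw [← sum_sub_distrib]
      refine sum_congr rfl fun u _ => ?_
      rw [← sum_sub_distrib]
      refine sum_congr rfl fun b _ => ?_
      split_ifs <;> ring
    rw [e1]
    ring
  rw [h6]
  refine (abs_sub _ _).trans ((add_le_add h1 h5).trans (le_of_eq ?_))
  ring

end

end Pool.Agent.TH958.An
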