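import Pool.Agent.TH958.FP.Spec
import Pool.Agent.TH958.An.ArithMain
import Pool.Agent.TH958.An.Third

/-!
# Points of the fibre power with values in finite fields
-/

set_option autoImplicit false

namespace Pool.Agent.TH958.An

open Finset MvPolynomial
open Pool.Agent.TH958.FP (AA PP RR yR yR_sq mkR mkR_surj wP aP xP BP RF RR_adjoin)
open Pool.Agent.H341R2 (card_sqrt)

section lift
variable {P : Type} [CommRing P] {r : ℕ} (w : Fin r → P) {S : Type} [CommRing S]

/-- ring homomorphisms out of `P[√w]` -/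
noncomputable def liftRing (g : P →+* S) (z : Fin r → S) (hz : ∀ i, z i ^ 2 = g (w i)) :
    RR w →+* S :=
  Ideal.Quotient.lift (Ideal.span (Set.range fun i =>
    (X i ^ 2 - C (w i) : MvPolynomial (Fin r) P))) (eval₂Hom g z) (by
    intro a ha
    have h : Ideal.span (Set.range fun i => (X i ^ 2 - C (w i) : MvPolynomial (Fin r) P)) ≤
        RingHom.ker (eval₂Hom g z) := by
      rw [Ideal.span_le]
      rintro _ ⟨i, rfl⟩
      simp [hz]
    exact h ha)

lemma liftRing_base (g : P →+* S) (z : Fin r → S) (hz : ∀ i, z i ^ 2 = g (w i)) (p : P) :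
    liftRing w g z hz (algebraMap P (RR w) p) = g p := by
  change eval₂Hom g z (C p) = g p
  simp

lemma liftRing_y (g : P →+* S) (z : Fin r → S) (hz : ∀ i, z i ^ 2 = g (w i)) (i : Fin r) :
    liftRing w g z hz (yR w i) = z i := by
  change eval₂Hom g z (X i) = z i
  simp

lemma RR_ringHom_ext {f g : RR w →+* S}
    (h1 : ∀ p, f (algebraMap P (RR w) p) = g (algebraMap P (RR w) p))
    (h2 : ∀ i, f (yR w i) = g (yR w i)) : f = g := by
  have h : f.comp (mkR w : MvPolynomial (Fin r) P →+* RR w) =
      g.comp (mkR w : MvPolynomial (Fin r) P →+* RR w) := by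
    apply MvPolynomial.ringHom_ext
    · intro p
      have : mkR w (C p) = algebraMap P (RR w) p := (mkR w).commutes p
      change f (mkR w (C p)) = g (mkR w (C p))
      rw [this]
      exact h1 p
    · intro i
      exact h2 i
  refine RingHom.ext fun x => ?_
  obtain ⟨p, rfl⟩ := mkR_surj w x
  exact congrArg (fun k => k p) h

end lift

section
variable {τ : Type} (a : MvPolynomial τ ℤ) (r : ℕ)

instance finType [Finite τ] : Algebra.FiniteType ℤ (RF r a) := by
  have h1 : Algebra.FiniteType ℤ (MvPolynomial (Fin r) (PP τ r)) :=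
    Algebra.FiniteType.trans (S := PP τ r) inferInstance inferInstance
  let f : MvPolynomial (Fin r) (PP τ r) →ₐ[ℤ] RF r a :=
    { toRingHom := (mkR (wP a : Fin r → PP τ r) : MvPolynomial (Fin r) (PP τ r) →+* RF r a)
      commutes' := fun n => congrArg (fun k : ℤ →+* RF r a => k n) (RingHom.ext_int
        ((mkR (wP a : Fin r → PP τ r) : MvPolynomial (Fin r) (PP τ r) →+* RF r a).comp
          (algebraMap ℤ (MvPolynomial (Fin r) (PP τ r)))) (algebraMap ℤ (RF r a))) }
  exact Algebra.FiniteType.of_surjective f (mkR_surj _)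

/-- the elliptic curve over the coordinate ring of the fibre power -/
noncomputable def EE : WeierstrassCurve (RF r a) where
  a₁ := 0
  a₂ := 0
  a₃ := 0
  a₄ := algebraMap (PP τ r) (RF r a) (aP a)
  a₆ := algebraMap (PP τ r) (RF r a) BP

/-- the element inverted on the base of the model -/
noncomputable def NE : RF r a :=
  algebraMap (PP τ r) (RF r a) (6 * (4 * aP a ^ 3 + 27 * BP ^ 2))

variable {r}
variable {F : Type} [Field F]

/-- the coordinates of a point -/
def pt {r : ℕ} (u : τ → F) (b : F) (x : Fin r → F) : Option (τ ⊕ Fin r) → F :=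
  fun o => Option.elim o b (Sum.elim u x)

lemma aeval_a (u : τ → F) (b : F) (x : Fin r → F) :
    aeval (R := ℤ) (pt u b x) (aP a : PP τ r) = aeval (R := ℤ) u a := by
  rw [aP, aeval_rename]
  rfl

lemma aeval_w (u : τ → F) (b : F) (x : Fin r → F) (i : Fin r) :
    aeval (R := ℤ) (pt u b x) (wP a i : PP τ r) = x i ^ 3 + aeval (R := ℤ) u a * x i + b := by
  rw [wP, map_add, map_add, map_mul, map_pow, aeval_a, xP, BP, aeval_X, aeval_X]
  rfl

/-- the set of points of the fibre power with values in `F` -/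
def PSet (a : MvPolynomial τ ℤ) (r : ℕ) (F : Type) [Field F] : Type :=
  {p : ((τ → F) × F) × (Fin r → F × F) // ∀ i,
    (p.2 i).2 ^ 2 = (p.2 i).1 ^ 3 + aeval (R := ℤ) p.1.1 a * (p.2 i).1 + p.1.2}

lemma hom_base (φ : RF r a →+* F) (p : PP τ r) : φ (algebraMap (PP τ r) (RF r a) p) =
    aeval (R := ℤ) (pt (fun t => φ (algebraMap (PP τ r) (RF r a) (X (some (Sum.inl t)))))
      (φ (algebraMap (PP τ r) (RF r a) BP))
      (fun i => φ (algebraMap (PP τ r) (RF r a) (xP i)))) p := by
  have h : φ.comp (algebraMap (PP τ r) (RF r a)) =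
      ((aeval (R := ℤ) (pt (fun t => φ (algebraMap (PP τ r) (RF r a) (X (some (Sum.inl t)))))
      (φ (algebraMap (PP τ r) (RF r a) BP))
      (fun i => φ (algebraMap (PP τ r) (RF r a) (xP i)))) : PP τ r →ₐ[ℤ] F) : PP τ r →+* F) := by
    apply MvPolynomial.ringHom_ext
    · intro c
      exact congrArg (fun k : ℤ →+* F => k c) (RingHom.ext_int
        ((φ.comp (algebraMap (PP τ r) (RF r a))).comp C)
        (((aeval (R := ℤ) (pt (fun t => φ (algebraMap (PP τ r) (RF r a) (X (some (Sum.inl t)))))
          (φ (algebraMap (PP τ r) (RF r a) BP))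
          (fun i => φ (algebraMap (PP τ r) (RF r a) (xP i)))) : PP τ r →ₐ[ℤ] F) :
            PP τ r →+* F).comp C))
    · intro o
      rcases o with _ | (t | i)
      · simp [pt, BP]
      · simp [pt]
      · simp [pt, xP]
  exact congrArg (fun k => k p) h

/-- the points of the fibre power -/
noncomputable def homEquiv : (RF r a →+* F) ≃ PSet a r F where
  toFun φ := ⟨((fun t => φ (algebraMap (PP τ r) (RF r a) (X (some (Sum.inl t)))),
      φ (algebraMap (PP τ r) (RF r a) BP)),
      fun i => (φ (algebraMap (PP τ r) (RF r a) (xP i)), φ (yR _ i))), by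
    intro i
    change φ (yR _ i) ^ 2 = _
    rw [← map_pow, yR_sq, hom_base, aeval_w]⟩
  invFun p := liftRing _ ((aeval (R := ℤ) (pt p.1.1.1 p.1.1.2 (fun i => (p.1.2 i).1)) :
      PP τ r →ₐ[ℤ] F) : PP τ r →+* F) (fun i => (p.1.2 i).2) (by
    intro i
    change _ = aeval (R := ℤ) (pt p.1.1.1 p.1.1.2 (fun i => (p.1.2 i).1)) (wP a i)
    rw [aeval_w]
    exact p.2 i)
  left_inv φ := by
    apply RR_ringHom_ext
    · intro p
      rw [liftRing_base, hom_base]
      rfl
    · intro i
      rw [liftRing_y]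
  right_inv p := by
    apply Subtype.ext
    refine Prod.ext (Prod.ext ?_ ?_) ?_
    · funext t
      change liftRing _ _ _ _ _ = _
      rw [liftRing_base]
      change aeval (R := ℤ) (pt p.1.1.1 p.1.1.2 (fun i => (p.1.2 i).1)) (X (some (Sum.inl t))) = _
      rw [aeval_X]
      rfl
    · change liftRing _ _ _ _ _ = _
      rw [liftRing_base]
      change aeval (R := ℤ) (pt p.1.1.1 p.1.1.2 (fun i => (p.1.2 i).1)) BP = _
      rw [BP, aeval_X]
      rfl
    · funext i
      refine Prod.ext ?_ ?_
      · change liftRing _ _ _ _ _ = _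
        rw [liftRing_base]
        change aeval (R := ℤ) (pt p.1.1.1 p.1.1.2 (fun i => (p.1.2 i).1)) (xP i) = _
        rw [xP, aeval_X]
        rfl
      · change liftRing _ _ _ _ _ = _
        rw [liftRing_y]

end

end Pool.Agent.TH958.An
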