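import Pool.Agent.TH958.An.Fib

/-!
# Sums of traces over the points of the fibre power with values in finite fields
-/

set_option autoImplicit false

namespace Pool.Agent.TH958.An

open Finset MvPolynomial
open Pool.Agent.TH958.FP (AA PP RR yR yR_sq mkR mkR_surj wP aP xP BP RF RR_adjoin)
open Pool.Agent.H341R2 (card_sqrt)
open WeierstrassCurve WeierstrassCurve.Affine

section
variable {F : Type} [Field F] [Fintype F] [DecidableEq F]

/-- the number of affine points -/
theorem card_affine (hF : ringChar F ≠ 2) (A b : F) :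
    ((univ.filter fun P : F × F => P.2 ^ 2 = P.1 ^ 3 + A * P.1 + b).card : ℤ) =
      Fintype.card F + SS A b := by
  have h1 : (univ.filter fun P : F × F => P.2 ^ 2 = P.1 ^ 3 + A * P.1 + b).card =
      ∑ x : F, (univ.filter fun z : F => z ^ 2 = x ^ 3 + A * x + b).card := by
    rw [card_filter, Fintype.sum_prod_type]
    refine sum_congr rfl fun x _ => ?_
    rw [card_filter]
  rw [h1, Nat.cast_sum]
  have h2 : ∀ x : F, ((univ.filter fun z : F => z ^ 2 = x ^ 3 + A * x + b).card : ℤ) =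
      quadraticChar F (x ^ 3 + A * x + b) + 1 := by
    intro x
    rw [← quadraticChar_card_sqrts hF]
    congr 2
    ext z
    simp
  rw [sum_congr rfl fun x _ => h2 x, sum_add_distrib, SS, sum_const, card_univ, nsmul_eq_mul,
    mul_one, add_comm]

/-- any conic-like fibre has at most `2q` points -/
theorem card_affine_le (A b : F) :
    (univ.filter fun P : F × F => P.2 ^ 2 = P.1 ^ 3 + A * P.1 + b).card ≤ 2 * Fintype.card F := by
  have h1 : (univ.filter fun P : F × F => P.2 ^ 2 = P.1 ^ 3 + A * P.1 + b).card =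
      ∑ x : F, (univ.filter fun z : F => z ^ 2 = x ^ 3 + A * x + b).card := by
    rw [card_filter, Fintype.sum_prod_type]
    refine sum_congr rfl fun x _ => ?_
    rw [card_filter]
  rw [h1]
  calc ∑ x : F, (univ.filter fun z : F => z ^ 2 = x ^ 3 + A * x + b).card ≤ ∑ _x : F, 2 := by
        refine sum_le_sum fun x _ => ?_
        generalize x ^ 3 + A * x + b = c
        have h5 : (univ.filter fun z : F => z ^ 2 = c) ⊆
            (Polynomial.X ^ 2 - Polynomial.C c : Polynomial F).roots.toFinset := by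
          intro z hz
          rw [mem_filter] at hz
          rw [Multiset.mem_toFinset, Polynomial.mem_roots']
          refine ⟨Polynomial.X_pow_sub_C_ne_zero (by norm_num) c, ?_⟩
          rw [Polynomial.IsRoot]
          simp [hz.2]
        refine (card_le_card h5).trans ((Multiset.toFinset_card_le _).trans
          ((Polynomial.card_roots' _).trans ?_))
        rw [Polynomial.natDegree_X_pow_sub_C]
    _ = 2 * Fintype.card F := by rw [sum_const, card_univ, smul_eq_mul, mul_comm]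

omit [DecidableEq F] in
/-- the trace of Frobenius of `Y² = X³ + A X + b` -/
theorem trE_eq [DecidableEq F] (hF : ringChar F ≠ 2) (W : WeierstrassCurve F) (A b : F)
    (h1 : W.a₁ = 0) (h2 : W.a₂ = 0) (h3 : W.a₃ = 0) (h4 : W.a₄ = A) (h6 : W.a₆ = b)
    (hD : 4 * A ^ 3 + 27 * b ^ 2 ≠ 0) : trE W = -SS A b := by
  have h20 : (2 : F) ≠ 0 := Ring.two_ne_zero hF
  have heq : ∀ x y : F, W.toAffine.Equation x y ↔ y ^ 2 = x ^ 3 + A * x + b := by
    intro x y
    rw [equation_iff, h1, h2, h3, h4, h6]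
    constructor <;> intro h <;> linear_combination h
  have hns : ∀ x y : F, y ^ 2 = x ^ 3 + A * x + b → W.toAffine.Nonsingular x y := by
    intro x y h
    rw [nonsingular_iff]
    refine ⟨(heq x y).2 h, ?_⟩
    by_contra hcon
    push Not at hcon
    rw [h1, h2, h3, h4] at hcon
    obtain ⟨c1, c2⟩ := hcon
    have hy : y = 0 := by
      have : 2 * y = 0 := by linear_combination c2
      exact (mul_eq_zero.1 this).resolve_left h20
    subst hy
    apply hD
    have c3 : 3 * x ^ 2 + A = 0 := by linear_combination -c1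
    have c4 : x ^ 3 + A * x + b = 0 := by linear_combination -h
    linear_combination (-18 * A * x + 27 * b) * c4 + (6 * A * x ^ 2 - 9 * b * x + 4 * A ^ 2) * c3
  let e : W.toAffine.Point ≃ Option {P : F × F // P.2 ^ 2 = P.1 ^ 3 + A * P.1 + b} :=
    { toFun := fun P => match P with
        | 0 => none
        | @Point.some _ _ _ x y h => some ⟨(x, y), (heq x y).1 h.1⟩
      invFun := fun o => match o with
        | none => 0
        | some P => Point.some P.1.1 P.1.2 (hns _ _ P.2)
      left_inv := by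
        rintro (_ | ⟨x, y, h⟩) <;> rfl
      right_inv := by
        rintro (_ | ⟨⟨x, y⟩, h⟩) <;> rfl }
  have hcard : Nat.card W.toAffine.Point =
      (univ.filter fun P : F × F => P.2 ^ 2 = P.1 ^ 3 + A * P.1 + b).card + 1 := by
    rw [Nat.card_congr e, Nat.card_eq_fintype_card, Fintype.card_option, Fintype.card_subtype]
  rw [trE, hcard]
  push_cast
  rw [card_affine hF, Nat.card_eq_fintype_card]
  ring

end

section
variable {τ : Type} [Fintype τ] [DecidableEq τ] (a : MvPolynomial τ ℤ) {r : ℕ}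
variable {F : Type} [Field F] [Fintype F] [DecidableEq F]

omit [Fintype τ] [DecidableEq τ] [Fintype F] [DecidableEq F] in
lemma phi_N (φ : RF r a →+* F) : φ (NE a r) =
    6 * (4 * aeval (R := ℤ) (homEquiv a φ).1.1.1 a ^ 3 + 27 * (homEquiv a φ).1.1.2 ^ 2) := by
  rw [NE, hom_base, map_mul, map_add, map_mul, map_mul, map_pow, map_pow, map_ofNat, map_ofNat,
    map_ofNat, aeval_a, BP, aeval_X]
  rfl

omit [Fintype τ] [DecidableEq τ] [Fintype F] [DecidableEq F] in
lemma phi_E (φ : RF r a →+* F) : ((EE a r).map φ).a₁ = 0 ∧ ((EE a r).map φ).a₂ = 0 ∧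
    ((EE a r).map φ).a₃ = 0 ∧
    ((EE a r).map φ).a₄ = aeval (R := ℤ) (homEquiv a φ).1.1.1 a ∧
    ((EE a r).map φ).a₆ = (homEquiv a φ).1.1.2 := by
  refine ⟨map_zero _, map_zero _, map_zero _, ?_, rfl⟩
  change φ (algebraMap (PP τ r) (RF r a) (aP a)) = _
  rw [hom_base, aeval_a]
  rfl

omit [Fintype τ] [DecidableEq τ] in
lemma tF_eq [Fintype τ] [DecidableEq τ] (h2 : (2 : F) ≠ 0) (h3 : (3 : F) ≠ 0)
    (φ : RF r a →+* F) : tF (EE a r) (NE a r) φ =
      if 4 * aeval (R := ℤ) (homEquiv a φ).1.1.1 a ^ 3 + 27 * (homEquiv a φ).1.1.2 ^ 2 = 0 then 0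
      else -(SS (aeval (R := ℤ) (homEquiv a φ).1.1.1 a) (homEquiv a φ).1.1.2 : ℝ) := by
  have hF : ringChar F ≠ 2 := by
    intro h
    have := ringChar.Nat.cast_ringChar (R := F)
    rw [h] at this
    exact h2 (by exact_mod_cast this)
  have h60 : (6 : F) ≠ 0 := by
    have : (6 : F) = 2 * 3 := by norm_num
    rw [this]
    exact mul_ne_zero h2 h3
  obtain ⟨e1, e2, e3, e4, e6⟩ := phi_E a φ
  rw [tF, phi_N]
  split_ifs with h h' h'
  · exact absurd (by rw [h', mul_zero]) h
  · rw [trE_eq hF _ _ _ e1 e2 e3 e4 e6 h']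
    push_cast
    rfl
  · rfl
  · exact absurd (mul_ne_zero h60 h') h

theorem card_hom_sum {G : ((τ → F) × F) → ℝ} [Fintype (RF r a →+* F)] :
    ∑ φ : RF r a →+* F, G (homEquiv a φ).1.1 = ∑ p : (τ → F) × F,
      ((univ.filter fun P : F × F => P.2 ^ 2 = P.1 ^ 3 + aeval (R := ℤ) p.1 a * P.1 + p.2).card : ℝ) ^ r
        * G p := by
  have h1 : ∑ φ : RF r a →+* F, G (homEquiv a φ).1.1 =
      ∑ p ∈ univ.filter (fun p : ((τ → F) × F) × (Fin r → F × F) => ∀ i,
        (p.2 i).2 ^ 2 = (p.2 i).1 ^ 3 + aeval (R := ℤ) p.1.1 a * (p.2 i).1 + p.1.2), G p.1 := by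
    refine sum_bij' (fun φ _ => (homEquiv a φ).1)
      (fun p hp => (homEquiv a).symm ⟨p, (mem_filter.1 hp).2⟩) ?_ ?_ ?_ ?_ ?_
    · intro φ _
      rw [mem_filter]
      exact ⟨mem_univ _, (homEquiv a φ).2⟩
    · intro p hp
      exact mem_univ _
    · intro φ _
      exact (homEquiv a).symm_apply_apply φ
    · intro p hp
      exact congrArg Subtype.val ((homEquiv a).apply_symm_apply ⟨p, (mem_filter.1 hp).2⟩)
    · intro φ _
      rfl
  rw [h1, sum_filter, Fintype.sum_prod_type]
  refine sum_congr rfl fun p _ => ?_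
  rw [← sum_filter]
  change (∑ _f ∈ univ.filter (fun f : Fin r → F × F => ∀ i,
      (f i).2 ^ 2 = (f i).1 ^ 3 + aeval (R := ℤ) p.1 a * (f i).1 + p.2), G p) = _
  rw [sum_const, nsmul_eq_mul]
  congr 1
  have h2 : (univ.filter fun f : Fin r → F × F => ∀ i,
      (f i).2 ^ 2 = (f i).1 ^ 3 + aeval (R := ℤ) p.1 a * (f i).1 + p.2) =
      Fintype.piFinset (fun _ : Fin r =>
        univ.filter fun P : F × F => P.2 ^ 2 = P.1 ^ 3 + aeval (R := ℤ) p.1 a * P.1 + p.2) := by
    ext f
    simp [Fintype.mem_piFinset]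
  rw [h2, Fintype.card_piFinset]
  simp

theorem card_hom_le : (Nat.card (RF r a →+* F) : ℝ) ≤
    2 ^ r * (Fintype.card F : ℝ) ^ (((Fintype.card τ + r + 1 : ℕ) : ℝ)) := by
  let _ : Fintype (RF r a →+* F) := Fintype.ofFinite _
  have h := card_hom_sum (r := r) a (F := F) (G := fun _ => 1)
  simp only [mul_one] at h
  rw [sum_const, card_univ, nsmul_eq_mul, mul_one, ← Nat.card_eq_fintype_card] at h
  rw [h, Real.rpow_natCast]
  have hq : (0 : ℝ) ≤ Fintype.card F := Nat.cast_nonneg _
  calc _ ≤ ∑ _p : (τ → F) × F, (2 * (Fintype.card F : ℝ)) ^ r := by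
        refine sum_le_sum fun p _ => ?_
        refine pow_le_pow_left₀ (Nat.cast_nonneg _) ?_ r
        exact_mod_cast card_affine_le (aeval (R := ℤ) p.1 a) p.2
    _ = 2 ^ r * (Fintype.card F : ℝ) ^ (Fintype.card τ + r + 1) := by
        rw [sum_const, card_univ, Fintype.card_prod, Fintype.card_fun, nsmul_eq_mul]
        push_cast
        rw [mul_pow, pow_add, pow_add]
        ring

theorem trace_sum (h2 : (2 : F) ≠ 0) (h3 : (3 : F) ≠ 0) :
    ∑ᶠ φ : RF r a →+* F, tF (EE a r) (NE a r) φ = ∑ u : τ → F, ∑ b : F,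
      (if 4 * aeval (R := ℤ) u a ^ 3 + 27 * b ^ 2 = 0 then 0 else tt a r u b) := by
  have hF : ringChar F ≠ 2 := by
    intro h
    have := ringChar.Nat.cast_ringChar (R := F)
    rw [h] at this
    exact h2 (by exact_mod_cast this)
  let _ : Fintype (RF r a →+* F) := Fintype.ofFinite _
  rw [finsum_eq_sum_of_fintype]
  have h := card_hom_sum (r := r) a (F := F) (G := fun p =>
    if 4 * aeval (R := ℤ) p.1 a ^ 3 + 27 * p.2 ^ 2 = 0 then 0
      else -(SS (aeval (R := ℤ) p.1 a) p.2 : ℝ))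
  rw [sum_congr rfl fun φ _ => tF_eq a h2 h3 φ, h, Fintype.sum_prod_type]
  refine sum_congr rfl fun u _ => sum_congr rfl fun b _ => ?_
  split_ifs with h0
  · rw [mul_zero]
  · have h5 := card_affine hF (aeval (R := ℤ) u a) b
    have h6 : ((univ.filter fun P : F × F =>
        P.2 ^ 2 = P.1 ^ 3 + aeval (R := ℤ) u a * P.1 + b).card : ℝ) =
        (Fintype.card F : ℝ) + SS (aeval (R := ℤ) u a) b := by exact_mod_cast h5
    rw [h6, tt]
    ring

omit [DecidableEq τ] in
theorem trE_bound (φ : RF r a →+* F) (hφ : φ (NE a r) ≠ 0) :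
    |(trE ((EE a r).map φ) : ℝ)| ≤ 2 * Real.sqrt (Fintype.card F) := by
  rw [phi_N] at hφ
  have h6 := left_ne_zero_of_mul hφ
  have h7 := right_ne_zero_of_mul hφ
  have h2 : (2 : F) ≠ 0 := by
    intro h
    apply h6
    have : (6 : F) = 2 * 3 := by norm_num
    rw [this, h, zero_mul]
  have hF : ringChar F ≠ 2 := by
    intro h
    have := ringChar.Nat.cast_ringChar (R := F)
    rw [h] at this
    exact h2 (by exact_mod_cast this)
  obtain ⟨e1, e2, e3, e4, e6⟩ := phi_E a φ
  rw [trE_eq hF _ _ _ e1 e2 e3 e4 e6 h7]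
  push_cast
  rw [abs_neg]
  exact SS_bound hF _ _

end

end Pool.Agent.TH958.An
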