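import Pool.Agent.TH958.An.FibSum
import Pool.Agent.TH958.FP.Rank

/-!
# Tate's conjecture for the universal point of the fibre power
-/

set_option autoImplicit false

namespace Pool.Agent.TH958.An

open MvPolynomial
open Pool.Agent.TH958.FP (AA PP RR yR yR_sq mkR mkR_surj wP aP xP BP RF RR_adjoin WB WB_a1 WB_a2
  WB_a3 WB_a4 WB_a6 rank_WB K_inj)

/-- The Euler product over the fibre power. -/
theorem analytic (τ : Type) [Fintype τ] (a : MvPolynomial τ ℤ) (ha : a ≠ 0) (r : ℕ) (hr : 0 < r) :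
    ∃ Φ : ℂ → ℂ,
      (∀ s : ℂ, ((Fintype.card τ + r + 1 : ℕ) : ℝ) + 3 / 2 < s.re →
        HasProd (fun y : {y : Pt (RF r a) // NE a r ∉ y.asIdeal} =>
          (1 - (ay (EE a r) y.1 : ℂ) * (qy y.1 : ℂ) ^ (-s) + (qy y.1 : ℂ) ^ (1 - 2 * s))⁻¹) (Φ s)) ∧
      MeromorphicOn Φ {s : ℂ | ((Fintype.card τ + r + 1 : ℕ) : ℝ) + 5 / 6 < s.re} ∧
      meromorphicOrderAt Φ (((Fintype.card τ + r + 1 : ℕ) : ℂ) + 1) = ((r : ℤ) : WithTop ℤ) ∧
      (∀ s : ℂ, s.re = ((Fintype.card τ + r + 1 : ℕ) : ℝ) + 1 →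
        s ≠ ((Fintype.card τ + r + 1 : ℕ) : ℂ) + 1 → AnalyticAt ℂ Φ s ∧ Φ s ≠ 0) := by
  classical
  obtain ⟨μ, hμ⟩ : ∃ μ, coeff μ a ≠ 0 := by
    by_contra hcon
    push Not at hcon
    exact ha (MvPolynomial.ext _ _ (by simpa using hcon))
  have h2N : (2 : RF r a) ∣ NE a r := by
    refine ⟨algebraMap (PP τ r) (RF r a) (3 * (4 * aP a ^ 3 + 27 * BP ^ 2)), ?_⟩
    have h2 : (2 : RF r a) = algebraMap (PP τ r) (RF r a) 2 := by rw [map_ofNat]
    rw [NE, h2, ← map_mul]
    congr 1
    ring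
  refine arith_core (EE a r) (NE a r) h2N (Fintype.card τ + r + 1) (by omega) r
    (fun F _ _ φ hφ => trE_bound a φ hφ) (2 ^ r) (by positivity) (fun F _ _ => card_hom_le a)
    (6 * coeff μ a) (mul_ne_zero (by norm_num) hμ)
    (8 * 4 ^ r + r * (3 + 2 * a.totalDegree) + 4 * 3 ^ r) (by positivity) ?_
  intro F _ _ hM
  have h6 : (6 : F) ≠ 0 := by
    intro h
    apply hM
    push_cast
    rw [h, zero_mul]
  have h2 : (2 : F) ≠ 0 := by
    intro h
    apply h6
    have : (6 : F) = 2 * 3 := by norm_num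
    rw [this, h, zero_mul]
  have h3 : (3 : F) ≠ 0 := by
    intro h
    apply h6
    have : (6 : F) = 2 * 3 := by norm_num
    rw [this, h, mul_zero]
  have hF : ringChar F ≠ 2 := by
    intro h
    have := ringChar.Nat.cast_ringChar (R := F)
    rw [h] at this
    exact h2 (by exact_mod_cast this)
  have hμF : ((coeff μ a : ℤ) : F) ≠ 0 := by
    intro h
    apply hM
    push_cast
    rw [h, mul_zero]
  have h := sum_good a hF h3 μ hμF r hr
  rw [← trace_sum a h2 h3] at h
  have hq0 : (0 : ℝ) < Fintype.card F := by exact_mod_cast Fintype.card_pos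
  rw [Real.rpow_natCast]
  refine h.trans (le_of_eq ?_)
  congr 1
  rw [Real.sqrt_eq_rpow, ← Real.rpow_natCast, ← Real.rpow_add hq0]
  congr 1
  push_cast
  ring

/-- The group of points over the function field. -/
theorem algebraic (τ : Type) (a : MvPolynomial τ ℤ) (r : ℕ) (hr : 0 < r)
    (K : Type) [Field K] [DecidableEq K] [Algebra (RF r a) K] [IsFractionRing (RF r a) K] :
    Module.Free ℤ ((EE a r).map (algebraMap (RF r a) K)).toAffine.Point ∧
    Module.Finite ℤ ((EE a r).map (algebraMap (RF r a) K)).toAffine.Point ∧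
    Module.finrank ℤ ((EE a r).map (algebraMap (RF r a) K)).toAffine.Point = r := by
  classical
  let _ : Algebra (PP τ r) K :=
    ((algebraMap (RF r a) K).comp (algebraMap (PP τ r) (RF r a))).toAlgebra
  have hst : IsScalarTower (PP τ r) (RF r a) K := IsScalarTower.of_algebraMap_eq' rfl
  have hinj : Function.Injective (algebraMap (PP τ r) K) := K_inj a
  let _ : Algebra (FractionRing (PP τ r)) K := (IsFractionRing.lift (K := FractionRing (PP τ r))
    hinj).toAlgebra
  have hst2 : IsScalarTower (PP τ r) (FractionRing (PP τ r)) K := by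
    refine IsScalarTower.of_algebraMap_eq fun p => ?_
    exact (IsFractionRing.lift_algebraMap hinj p).symm
  have h := rank_WB a (FractionRing (PP τ r)) (K := K) hr
  have hW : WB a r (FractionRing (PP τ r)) K = (EE a r).map (algebraMap (RF r a) K) := by
    apply WeierstrassCurve.ext
    · rw [WB_a1]; exact (map_zero _).symm
    · rw [WB_a2]; exact (map_zero _).symm
    · rw [WB_a3]; exact (map_zero _).symm
    · rw [WB_a4]; rfl
    · rw [WB_a6]; rfl
  rw [hW] at h
  exact h

end Pool.Agent.TH958.An
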