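import Pool.Agent.H126R3.Fibers

/-!
# Closed points of schemes of finite type over the integers
-/

set_option autoImplicit false

namespace Pool.Agent.TH958.An

open Pool.Agent.H126R3 (finite_of_finiteType card_ringHom pair_unique)

/-- the closed points of the spectrum -/
abbrev Pt (R : Type) [CommRing R] : Type := MaximalSpectrum R

/-- the residue field of a closed point -/
abbrev Res {R : Type} [CommRing R] (y : Pt R) : Type := R ⧸ y.asIdeal

noncomputable instance resField {R : Type} [CommRing R] (y : Pt R) : Field (Res y) :=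
  Ideal.Quotient.field y.asIdeal

/-- the norm `q_y` of a closed point: the cardinality of its residue field -/
noncomputable def qy {R : Type} [CommRing R] (y : Pt R) : ℕ := Nat.card (Res y)

/-- the closed point below a point with values in a finite field -/
noncomputable def ptOf {R : Type} [CommRing R] {F : Type} [Field F] [Finite F] (φ : R →+* F) :
    Pt R where
  asIdeal := RingHom.ker φ
  isMaximal := by
    have hP : (RingHom.ker φ).IsPrime := RingHom.ker_isPrime _
    have : Finite (R ⧸ RingHom.ker φ) := Finite.of_injective _ (RingHom.kerLift_injective φ)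
    exact Ideal.Quotient.maximal_of_isField _ (Finite.isField_of_domain _)

section
variable {R : Type} [CommRing R]

theorem mem_ptOf {F : Type} [Field F] [Finite F] (φ : R →+* F) (x : R) :
    x ∈ (ptOf φ).asIdeal ↔ φ x = 0 := by
  rw [ptOf, RingHom.mem_ker]

/-- points with values in `F` above the closed point `y` correspond to embeddings -/
noncomputable def fiberEquiv {F : Type} [Field F] [Finite F] (y : Pt R) :
    {φ : R →+* F // ptOf φ = y} ≃ (Res y →+* F) where
  toFun φ := Ideal.Quotient.lift y.asIdeal φ.1 (fun x hx => by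
      rw [← φ.2, mem_ptOf] at hx
      exact hx)
  invFun ψ := ⟨ψ.comp (Ideal.Quotient.mk y.asIdeal), by
    apply MaximalSpectrum.ext
    ext x
    rw [mem_ptOf, RingHom.comp_apply, map_eq_zero, Ideal.Quotient.eq_zero_iff_mem]⟩
  left_inv φ := by
    apply Subtype.ext
    ext x
    rfl
  right_inv ψ := by
    apply Ideal.Quotient.ringHom_ext
    ext x
    rfl

variable [hR : Algebra.FiniteType ℤ R]

instance finite_res (y : Pt R) : Finite (Res y) := by
  have : Algebra.FiniteType ℤ (Res y) :=
    Algebra.FiniteType.of_surjective (Ideal.Quotient.mkₐ ℤ y.asIdeal) Ideal.Quotient.mk_surjective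
  exact finite_of_finiteType (Res y)

instance finite_hom (F : Type) [Field F] [Finite F] : Finite (R →+* F) := by
  obtain ⟨n, f, hf⟩ := Algebra.FiniteType.iff_quotient_mvPolynomial''.1 hR
  refine Finite.of_injective (fun (φ : R →+* F) (i : Fin n) => φ (f (MvPolynomial.X i))) ?_
  intro φ ψ h
  ext x
  obtain ⟨p, rfl⟩ := hf x
  have h1 : φ.comp (f : MvPolynomial (Fin n) ℤ →+* R) = ψ.comp (f : MvPolynomial (Fin n) ℤ →+* R) := by
    apply MvPolynomial.ringHom_ext
    · intro c
      exact congrArg (fun g : ℤ →+* F => g c) (RingHom.ext_int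
        ((φ.comp (f : MvPolynomial (Fin n) ℤ →+* R)).comp MvPolynomial.C)
        ((ψ.comp (f : MvPolynomial (Fin n) ℤ →+* R)).comp MvPolynomial.C))
    · intro i
      exact congrFun h i
  exact congrArg (fun g => g p) h1

theorem exists_pk (y : Pt R) : ∃ c : Nat.Primes × ℕ,
    qy y = (c.1 : ℕ) ^ (c.2 + 1) ∧ ringChar (Res y) = c.1 := by
  have := Fintype.ofFinite (Res y)
  obtain ⟨n, hp, hn⟩ := FiniteField.card (Res y) (ringChar (Res y))
  refine ⟨(⟨_, hp⟩, n - 1), ?_, rfl⟩
  rw [qy, Nat.card_eq_fintype_card, hn]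
  have : (n : ℕ) - 1 + 1 = n := Nat.sub_add_cancel n.pos
  simp only [this]

/-- the pair `(p, k)` such that the residue field has `p ^ (k + 1)` elements -/
noncomputable def pk (y : Pt R) : Nat.Primes × ℕ := (exists_pk y).choose

theorem qy_eq (y : Pt R) : qy y = ((pk y).1 : ℕ) ^ ((pk y).2 + 1) :=
  (exists_pk y).choose_spec.1

theorem ringChar_eq (y : Pt R) : ringChar (Res y) = (pk y).1 :=
  (exists_pk y).choose_spec.2

theorem pk_eq_of (y : Pt R) (p : Nat.Primes) (k : ℕ)
    (h : qy y = (p : ℕ) ^ (k + 1)) : pk y = (p, k) := by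
  apply pair_unique
  rw [← qy_eq, h]

/-- the number of points of `Hom(R, F)` above a closed point of norm `#F` -/
theorem card_fiber (y : Pt R) (F : Type) [Field F] [Fintype F]
    (p : Nat.Primes) (k : ℕ) (h : Fintype.card F = (p : ℕ) ^ (k + 1)) (hy : pk y = (p, k)) :
    Nat.card {φ : R →+* F // ptOf φ = y} = k + 1 := by
  have := Fintype.ofFinite (Res y)
  have hc : Fintype.card (Res y) = Fintype.card F := by
    rw [h, ← Nat.card_eq_fintype_card]
    have := qy_eq y
    rw [hy] at this
    exact this
  have hpf : Fact (p : ℕ).Prime := ⟨p.2⟩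
  let e : Res y ≃+* F := FiniteField.ringEquivOfCardEq hc
  rw [Nat.card_congr (fiberEquiv (F := F) y)]
  have e2 : (Res y →+* F) ≃ (F →+* F) :=
    { toFun := fun φ => φ.comp (e.symm : F →+* Res y)
      invFun := fun φ => φ.comp (e : Res y →+* F)
      left_inv := fun φ => RingHom.ext fun x => by
        change φ (e.symm (e x)) = φ x
        rw [e.symm_apply_apply]
      right_inv := fun φ => RingHom.ext fun x => by
        change φ (e (e.symm x)) = φ x
        rw [e.apply_symm_apply] }
  rw [Nat.card_congr e2, card_ringHom F p k h]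

/-- if `F` has `p ^ (k + 1)` elements, the closed point below `φ` is of characteristic `p` -/
theorem pk_ptOf (F : Type) [Field F] [Fintype F] (φ : R →+* F)
    (p : Nat.Primes) (k : ℕ) (h : Fintype.card F = (p : ℕ) ^ (k + 1)) :
    (pk (ptOf φ)).1 = p ∧ ((pk (ptOf φ)).2 + 1) ∣ (k + 1) := by
  have hpf : Fact (p : ℕ).Prime := ⟨p.2⟩
  have hc : CharP F p := charP_of_card_eq_prime_pow h
  let ψ : Res (ptOf φ) →+* F := fiberEquiv (F := F) (ptOf φ) ⟨φ, rfl⟩
  have h1 : (pk (ptOf φ)).1 = p := by
    apply Subtype.ext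
    rw [← ringChar_eq]
    have hcr : CharP (Res (ptOf φ)) (ringChar (Res (ptOf φ))) := ringChar.charP _
    have := charP_of_injective_ringHom ψ.injective (ringChar (Res (ptOf φ)))
    exact CharP.eq F this hc
  refine ⟨h1, ?_⟩
  let _ : Algebra (Res (ptOf φ)) F := ψ.toAlgebra
  have := Fintype.ofFinite (Res (ptOf φ))
  have h2 := Module.card_eq_pow_finrank (K := Res (ptOf φ)) (V := F)
  have h3 := qy_eq (ptOf φ)
  rw [qy, Nat.card_eq_fintype_card, h1] at h3
  rw [h, h3, ← pow_mul] at h2
  exact ⟨_, Nat.pow_right_injective p.2.two_le h2⟩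

end

end Pool.Agent.TH958.An
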