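import Pool.Agent.H126G.ZC

/-!
# First and second moments of the traces of `Y² = X³ + A X + b` over `b`
-/

set_option autoImplicit false

namespace Pool.Agent.TH958.An

open Finset
open Pool.Agent.H126G (fs sum_char_linear sum_char_quadratic)

section
variable {F : Type} [Field F] [Fintype F] [DecidableEq F]

/-- the character sum of `x³ + A x + b` -/
noncomputable def SS (A b : F) : ℤ := ∑ x : F, quadraticChar F (x ^ 3 + A * x + b)

omit [DecidableEq F] in
theorem fs_eq [DecidableEq F] (A b : F) : fs 0 A b = SS A b := by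
  rw [fs, SS]
  refine sum_congr rfl fun x _ => ?_
  rw [zero_mul, add_zero]
  congr 1
  congr 1
  exact Subsingleton.elim _ _

theorem sum_SS (hF : ringChar F ≠ 2) (A : F) : ∑ b : F, SS A b = 0 := by
  simp only [SS]
  rw [sum_comm]
  refine sum_eq_zero fun x _ => ?_
  have h := sum_char_linear hF (1 : F) (x ^ 3 + A * x) one_ne_zero
  rw [← h]
  refine sum_congr rfl fun b _ => ?_
  congr 1
  ring

theorem sum_pair (hF : ringChar F ≠ 2) (c c' : F) :
    ∑ b : F, quadraticChar F (c + b) * quadraticChar F (c' + b) =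
      (if c = c' then (Fintype.card F : ℤ) else 0) - 1 := by
  split_ifs with h
  · subst h
    have h1 : ∀ b : F, quadraticChar F (c + b) * quadraticChar F (c + b) =
        1 - if b = -c then 1 else 0 := by
      intro b
      split_ifs with hb
      · rw [hb, add_neg_cancel]; simp
      · rw [← sq, quadraticChar_sq_one]
        · ring
        · intro h0
          apply hb
          linear_combination h0
    rw [sum_congr rfl fun b _ => h1 b, sum_sub_distrib, sum_ite_eq' univ (-c) (fun _ => (1 : ℤ)),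
      if_pos (mem_univ _), sum_const, card_univ, nsmul_eq_mul, mul_one]
  · have h1 : ∀ b : F, quadraticChar F (c + b) * quadraticChar F (c' + b) =
        quadraticChar F (1 * b ^ 2 + (c + c') * b + c * c') := by
      intro b
      rw [← map_mul]
      congr 1
      ring
    rw [sum_congr rfl fun b _ => h1 b, sum_char_quadratic hF 1 (c + c') (c * c') one_ne_zero, map_one]
    · ring
    · have h2 : (c + c') ^ 2 - 4 * 1 * (c * c') = (c - c') ^ 2 := by ring
      rw [h2]
      exact pow_ne_zero 2 (sub_ne_zero.2 h)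

/-- the number of `x'` with `x'³ + A x' = x³ + A x` -/
def NN (A x : F) : ℕ := (univ.filter fun x' : F => x ^ 3 + A * x = x' ^ 3 + A * x').card

theorem sum_SS_sq (hF : ringChar F ≠ 2) (A : F) : ∑ b : F, SS A b ^ 2 =
    (Fintype.card F : ℤ) * ∑ x : F, (NN A x : ℤ) - (Fintype.card F : ℤ) ^ 2 := by
  have h1 : ∀ b : F, SS A b ^ 2 = ∑ x : F, ∑ x' : F,
      quadraticChar F ((x ^ 3 + A * x) + b) * quadraticChar F ((x' ^ 3 + A * x') + b) := by
    intro b
    rw [SS, sq, sum_mul_sum]
  rw [sum_congr rfl fun b _ => h1 b, sum_comm]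
  have h2 : ∀ x : F, ∑ b : F, ∑ x' : F,
      quadraticChar F ((x ^ 3 + A * x) + b) * quadraticChar F ((x' ^ 3 + A * x') + b) =
      (Fintype.card F : ℤ) * NN A x - Fintype.card F := by
    intro x
    rw [sum_comm, sum_congr rfl fun x' _ => sum_pair hF _ _, sum_sub_distrib, sum_const, card_univ,
      nsmul_eq_mul, mul_one, ← sum_filter, sum_const, nsmul_eq_mul, NN, mul_comm]
  rw [sum_congr rfl fun x _ => h2 x, sum_sub_distrib, ← mul_sum, sum_const, card_univ,
    nsmul_eq_mul, sq]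

theorem card_quad (hF : ringChar F ≠ 2) (A x : F) :
    ((univ.filter fun x' : F => x' ^ 2 + x * x' + x ^ 2 + A = 0).card : ℤ) =
      quadraticChar F (-3 * x ^ 2 + 0 * x + -4 * A) + 1 := by
  have h2 : (2 : F) ≠ 0 := Ring.two_ne_zero hF
  rw [← quadraticChar_card_sqrts hF]
  congr 1
  refine card_bij' (fun x' _ => 2 * x' + x) (fun z _ => (z - x) / 2) ?_ ?_ ?_ ?_
  · intro x' hx'
    rw [mem_filter] at hx'
    rw [Set.mem_toFinset, Set.mem_ofPred_eq]
    linear_combination 4 * hx'.2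
  · intro z hz
    rw [Set.mem_toFinset, Set.mem_ofPred_eq] at hz
    rw [mem_filter]
    refine ⟨mem_univ _, ?_⟩
    field_simp
    linear_combination hz
  · intro x' _
    field_simp
    ring
  · intro z _
    field_simp
    ring

theorem NN_eq (hF : ringChar F ≠ 2) (A x : F) : (NN A x : ℤ) =
    2 + quadraticChar F (-3 * x ^ 2 + 0 * x + -4 * A) - (if 3 * x ^ 2 + A = 0 then 1 else 0) := by
  set Q := univ.filter fun x' : F => x' ^ 2 + x * x' + x ^ 2 + A = 0 with hQ
  have h1 : (univ.filter fun x' : F => x ^ 3 + A * x = x' ^ 3 + A * x') = {x} ∪ Q := by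
    ext x'
    rw [mem_filter, mem_union, mem_singleton, hQ, mem_filter]
    constructor
    · rintro ⟨-, h⟩
      have h2 : (x' - x) * (x' ^ 2 + x * x' + x ^ 2 + A) = 0 := by linear_combination -h
      rcases mul_eq_zero.1 h2 with h3 | h3
      · left; exact sub_eq_zero.1 h3
      · right; exact ⟨mem_univ _, h3⟩
    · rintro (rfl | ⟨-, h⟩)
      · exact ⟨mem_univ _, rfl⟩
      · exact ⟨mem_univ _, by linear_combination (x - x') * h⟩
  have h2 : ({x} ∩ Q).card = if 3 * x ^ 2 + A = 0 then 1 else 0 := by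
    split_ifs with h
    · rw [singleton_inter_of_mem, card_singleton]
      rw [hQ, mem_filter]
      exact ⟨mem_univ _, by linear_combination h⟩
    · rw [singleton_inter_of_notMem, card_empty]
      rw [hQ, mem_filter]
      rintro ⟨-, h3⟩
      apply h
      linear_combination h3
  have h3 := card_union_add_card_inter {x} Q
  rw [h2, card_singleton] at h3
  have h4 := card_quad hF A x
  rw [← hQ] at h4
  rw [NN, h1]
  have h5 : ((({x} ∪ Q).card : ℕ) : ℤ) + ((if 3 * x ^ 2 + A = 0 then 1 else 0 : ℕ) : ℤ) =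
      1 + (Q.card : ℤ) := by exact_mod_cast h3
  push_cast at h5
  linarith

theorem chi_le_one (x : F) : |quadraticChar F x| ≤ 1 := by
  by_cases h0 : x = 0
  · rw [h0]; simp
  · rcases quadraticChar_dichotomy h0 with h | h <;> simp [h]

theorem sum_NN_bounds (hF : ringChar F ≠ 2) (A : F) :
    0 ≤ ∑ x : F, (NN A x : ℤ) ∧ ∑ x : F, (NN A x : ℤ) ≤ 3 * Fintype.card F := by
  refine ⟨sum_nonneg fun x _ => Nat.cast_nonneg _, ?_⟩
  calc ∑ x : F, (NN A x : ℤ) ≤ ∑ _x : F, (3 : ℤ) := by
        refine sum_le_sum fun x _ => ?_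
        rw [NN_eq hF]
        have h1 := (abs_le.1 (chi_le_one (-3 * x ^ 2 + 0 * x + -4 * A))).2
        split_ifs <;> linarith
    _ = 3 * Fintype.card F := by
        rw [sum_const, card_univ, nsmul_eq_mul, mul_comm]

theorem sum_NN_ne (hF : ringChar F ≠ 2) (h3 : (3 : F) ≠ 0) (A : F) (hA : A ≠ 0) :
    |∑ x : F, (NN A x : ℤ) - 2 * Fintype.card F| ≤ 3 := by
  have h2 : (2 : F) ≠ 0 := Ring.two_ne_zero hF
  rw [sum_congr rfl fun x _ => NN_eq hF A x, sum_sub_distrib, sum_add_distrib, sum_const, card_univ,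
    nsmul_eq_mul, sum_char_quadratic hF (-3) 0 (-4 * A) (neg_ne_zero.2 h3)]
  · have hroots : ∑ x : F, (if 3 * x ^ 2 + A = 0 then (1 : ℤ) else 0) ≤ 2 := by
      rw [← sum_filter, sum_const, nsmul_eq_mul, mul_one]
      have h4 : (univ.filter fun x : F => 3 * x ^ 2 + A = 0).card ≤ 2 := by
        have h5 : (univ.filter fun x : F => 3 * x ^ 2 + A = 0) ⊆
            (Polynomial.C 3 * Polynomial.X ^ 2 + Polynomial.C A : Polynomial F).roots.toFinset := by
          intro x hx
          rw [mem_filter] at hx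
          rw [Multiset.mem_toFinset, Polynomial.mem_roots']
          refine ⟨?_, ?_⟩
          · intro h0
            have := congrArg (fun p => Polynomial.coeff p 0) h0
            simp at this
            exact hA this
          · rw [Polynomial.IsRoot]
            simp [hx.2]
        refine (card_le_card h5).trans ((Multiset.toFinset_card_le _).trans
          ((Polynomial.card_roots' _).trans ?_))
        compute_degree
      exact_mod_cast h4
    have hroots0 : 0 ≤ ∑ x : F, (if 3 * x ^ 2 + A = 0 then (1 : ℤ) else 0) :=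
      sum_nonneg fun x _ => by split_ifs <;> norm_num
    have h5 := abs_le.1 (chi_le_one (-3 : F))
    rw [abs_le]
    constructor <;> linarith [h5.1, h5.2]
  · have h4 : (0 : F) ^ 2 - 4 * -3 * (-4 * A) = -(2 ^ 4 * 3 * A) := by ring
    rw [h4]
    exact neg_ne_zero.2 (mul_ne_zero (mul_ne_zero (pow_ne_zero 4 h2) h3) hA)

theorem second_ne (hF : ringChar F ≠ 2) (h3 : (3 : F) ≠ 0) (A : F) (hA : A ≠ 0) :
    |∑ b : F, (SS A b : ℝ) ^ 2 - (Fintype.card F : ℝ) ^ 2| ≤ 3 * Fintype.card F := by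
  have h1 := sum_NN_ne hF h3 A hA
  have h2 : ∑ b : F, (SS A b : ℝ) ^ 2 - (Fintype.card F : ℝ) ^ 2 =
      (Fintype.card F : ℝ) * ((∑ x : F, (NN A x : ℤ) - 2 * Fintype.card F : ℤ) : ℝ) := by
    have h4 : ∑ b : F, (SS A b : ℝ) ^ 2 = ((∑ b : F, SS A b ^ 2 : ℤ) : ℝ) := by push_cast; rfl
    rw [h4, sum_SS_sq hF A]
    push_cast
    ring
  rw [h2, abs_mul, Nat.abs_cast, mul_comm]
  have h5 : |((∑ x : F, (NN A x : ℤ) - 2 * Fintype.card F : ℤ) : ℝ)| ≤ 3 := by exact_mod_cast h1
  exact mul_le_mul_of_nonneg_right h5 (Nat.cast_nonneg _)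

theorem second_all (hF : ringChar F ≠ 2) (A : F) :
    |∑ b : F, (SS A b : ℝ) ^ 2 - (Fintype.card F : ℝ) ^ 2| ≤ 2 * (Fintype.card F : ℝ) ^ 2 := by
  obtain ⟨h0, h1⟩ := sum_NN_bounds hF A
  have h2 : ∑ b : F, (SS A b : ℝ) ^ 2 - (Fintype.card F : ℝ) ^ 2 =
      (Fintype.card F : ℝ) * ((∑ x : F, (NN A x : ℤ) : ℤ) : ℝ) - 2 * (Fintype.card F : ℝ) ^ 2 := by
    have h4 : ∑ b : F, (SS A b : ℝ) ^ 2 = ((∑ b : F, SS A b ^ 2 : ℤ) : ℝ) := by push_cast; rfl
    rw [h4, sum_SS_sq hF A]
    push_cast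
    ring
  have h5 : ((∑ x : F, (NN A x : ℤ) : ℤ) : ℝ) ≤ 3 * Fintype.card F := by exact_mod_cast h1
  have h6 : (0 : ℝ) ≤ ((∑ x : F, (NN A x : ℤ) : ℤ) : ℝ) := by exact_mod_cast h0
  have hq : (0 : ℝ) ≤ Fintype.card F := Nat.cast_nonneg _
  rw [h2, abs_le]
  constructor <;> nlinarith

end

end Pool.Agent.TH958.An
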